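import Pool.Agent.Lib.MP_cbe08d_co.Final

/-!
Passing to connected components.
-/

set_option autoImplicit false

namespace Pool.Agent.Lib.MP_cbe08d_co

namespace Inst

variable {V : Type}

open Classical in
/-- Restriction to a vertex set `K`; arcs not inside `K` become loops at `x0`. -/
noncomputable def restrict (I : Inst V) (K : Set V) (x0 : K) : Inst K where
  A := I.A
  fin := I.fin
  le := fun a b => I.le a b
  refl := fun a => I.refl a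
  trans := fun h1 h2 => I.trans h1 h2
  t := fun a => if h : I.t a ∈ K ∧ I.h a ∈ K then ⟨I.t a, h.1⟩ else x0
  h := fun a => if h : I.t a ∈ K ∧ I.h a ∈ K then ⟨I.h a, h.2⟩ else x0

theorem col_of_components [Finite V] {N : ℕ} (hN : 0 < N) (I : Inst V)
    (hcut : ∀ X, I.Ideal X → (∃ a b, I.le a b ∧ a ∈ X ∧ b ∉ X) → N ≤ I.d X)
    (hloc : I.Loc) (htree : I.Tree) :
    ∃ c : I.A → Fin N, ∀ i X, I.Ideal X → (∃ a b, I.le a b ∧ a ∈ X ∧ b ∉ X) →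
      ∃ a ∈ I.Ent X, c a = i := by
  classical
  let K : V → Set V := fun x0 => {x | Relation.EqvGen I.le x0 x}
  have hK0 : ∀ x0, x0 ∈ K x0 := fun x0 => Relation.EqvGen.refl x0
  have hKu : ∀ x0 a b, I.le a b → a ∈ K x0 → b ∈ K x0 := fun x0 a b hab ha =>
    Relation.EqvGen.trans _ _ _ ha (Relation.EqvGen.rel _ _ hab)
  have hKl : ∀ x0 a b, I.le a b → b ∈ K x0 → a ∈ K x0 := fun x0 a b hab hb =>
    Relation.EqvGen.trans _ _ _ hb (Relation.EqvGen.symm _ _ (Relation.EqvGen.rel _ _ hab))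
  have ht : ∀ x0 a (h : I.t a ∈ K x0 ∧ I.h a ∈ K x0),
      (I.restrict (K x0) ⟨x0, hK0 x0⟩).t a = ⟨I.t a, h.1⟩ := fun x0 a h => dif_pos h
  have hh : ∀ x0 a (h : I.t a ∈ K x0 ∧ I.h a ∈ K x0),
      (I.restrict (K x0) ⟨x0, hK0 x0⟩).h a = ⟨I.h a, h.2⟩ := fun x0 a h => dif_pos h
  have ht' : ∀ x0 a, ¬ (I.t a ∈ K x0 ∧ I.h a ∈ K x0) →
      (I.restrict (K x0) ⟨x0, hK0 x0⟩).t a = ⟨x0, hK0 x0⟩ := fun x0 a h => dif_neg h
  have hh' : ∀ x0 a, ¬ (I.t a ∈ K x0 ∧ I.h a ∈ K x0) →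
      (I.restrict (K x0) ⟨x0, hK0 x0⟩).h a = ⟨x0, hK0 x0⟩ := fun x0 a h => dif_neg h
  have hgood : ∀ x0, Good N (I.restrict (K x0) ⟨x0, hK0 x0⟩) := by
    intro x0
    refine ⟨fun Y hY => ?_, fun (a : I.A) => ?_, ?_⟩
    · let X : Set V := {x | ∃ h : x ∈ K x0, (⟨x, h⟩ : K x0) ∈ Y}
      have hXi : I.Ideal X := fun a b hab ⟨hb, hbY⟩ =>
        ⟨hKl x0 a b hab hb, hY.1 ⟨a, _⟩ ⟨b, hb⟩ hab hbY⟩
      have hXn : ∃ a b, I.le a b ∧ a ∈ X ∧ b ∉ X := by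
        by_contra hcon
        have hup : ∀ a b, I.le a b → a ∈ X → b ∈ X := fun a b hab ha => by
          by_contra hb
          exact hcon ⟨a, b, hab, ha, hb⟩
        have key : ∀ a b, Relation.EqvGen I.le a b → (a ∈ X ↔ b ∈ X) := by
          intro a b hab
          induction hab with
          | rel a b h => exact ⟨hup a b h, hXi a b h⟩
          | refl a => exact Iff.rfl
          | symm a b _ ih => exact ih.symm
          | trans a b c _ _ ih1 ih2 => exact ih1.trans ih2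
        obtain ⟨⟨y1, hy1⟩, hy1'⟩ := hY.2.1
        obtain ⟨⟨y2, hy2⟩, hy2'⟩ := hY.2.2
        obtain ⟨_, h⟩ := (key x0 y2 hy2).1 ((key x0 y1 hy1).2 ⟨hy1, hy1'⟩)
        exact hy2' h
      refine le_trans (hcut X hXi hXn) (Set.ncard_le_ncard ?_ (Set.toFinite _))
      rintro a ⟨⟨h1, h2⟩, h3⟩
      obtain ⟨u, s, k1, k2, k3⟩ := hloc a
      have h4 : I.t a ∈ K x0 := hKl x0 _ _ k1 (hKu x0 _ _ k2 (hKl x0 _ _ k3 h1))
      refine ⟨?_, ?_⟩
      · rw [hh x0 a ⟨h4, h1⟩]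
        exact h2
      · rw [ht x0 a ⟨h4, h1⟩]
        exact fun h => h3 ⟨h4, h⟩
    · by_cases h : I.t a ∈ K x0 ∧ I.h a ∈ K x0
      · obtain ⟨u, s, k1, k2, k3⟩ := hloc a
        rw [ht x0 a h, hh x0 a h]
        exact ⟨⟨u, hKu x0 _ _ k1 h.1⟩, ⟨s, hKl x0 _ _ k3 h.2⟩, k1, k2, k3⟩
      · rw [ht' x0 a h, hh' x0 a h]
        exact ⟨⟨x0, hK0 x0⟩, ⟨x0, hK0 x0⟩, I.refl _, I.refl _, I.refl _⟩
    · have hmn : ∀ s : K x0, (I.restrict (K x0) ⟨x0, hK0 x0⟩).Mn s → I.Mn s :=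
        fun s hs y hy => hs ⟨y, hKl x0 _ _ hy s.2⟩ hy
      have hmx : ∀ u : K x0, (I.restrict (K x0) ⟨x0, hK0 x0⟩).Mx u → I.Mx u :=
        fun u hu y hy => hu ⟨y, hKu x0 _ _ hy u.2⟩ hy
      intro s u hs hu h1 h2
      obtain ⟨Q, k1, k2, k3, k4⟩ := htree s u (hmn s hs) (hmx u hu) h1 h2
      exact ⟨{x | x.1 ∈ Q}, k1, k2, fun a b hab hba ha => k3 a b hab hba ha,
        fun s' u' g1 g2 g3 => k4 s' u' (hmn s' g1) (hmx u' g2) g3⟩
  have hcol : ∀ x0, ∃ c : I.A → Fin N, ∀ i Y, (I.restrict (K x0) ⟨x0, hK0 x0⟩).Cut Y →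
      ∃ a ∈ (I.restrict (K x0) ⟨x0, hK0 x0⟩).Ent Y, c a = i := fun x0 => (hgood x0).col hN
  choose cf hcf using hcol
  let rep : V → V := fun x => (Quotient.mk (Relation.EqvGen.setoid I.le) x).out
  have hrep : ∀ x, x ∈ K (rep x) := fun x =>
    Quotient.mk_out (s := Relation.EqvGen.setoid I.le) x
  have hrep' : ∀ x y, y ∈ K (rep x) → rep y = rep x := by
    intro x y hy
    have : Quotient.mk (Relation.EqvGen.setoid I.le) y
        = Quotient.mk (Relation.EqvGen.setoid I.le) x :=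
      Quotient.sound (Relation.EqvGen.trans _ _ _ (Relation.EqvGen.symm _ _ hy) (hrep x))
    exact congrArg Quotient.out this
  refine ⟨fun a => cf (rep (I.h a)) a, ?_⟩
  rintro i X hX ⟨a, b, hab, ha, hb⟩
  obtain ⟨e, he, hce⟩ := hcf (rep a) i {x | x.1 ∈ X}
    ⟨fun x y hxy hy => hX _ _ hxy hy, ⟨⟨a, hrep a⟩, ha⟩, ⟨⟨b, hKu _ _ _ hab (hrep a)⟩, hb⟩⟩
  obtain ⟨he1, he2⟩ := he
  by_cases h : I.t e ∈ K (rep a) ∧ I.h e ∈ K (rep a)
  · rw [hh _ e h] at he1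
    rw [ht _ e h] at he2
    refine ⟨e, ⟨he1, he2⟩, ?_⟩
    change cf (rep (I.h e)) e = i
    rw [hrep' a _ h.2]
    exact hce
  · rw [hh' _ e h] at he1
    rw [ht' _ e h] at he2
    exact absurd he1 he2

end Inst

end Pool.Agent.Lib.MP_cbe08d_co
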