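import Pool.Agent.Lib.MP_cbe08d_co.Inst

/-!
Decomposition along a nontrivial tight cut.
-/

set_option autoImplicit false

namespace Pool.Agent.Lib.MP_cbe08d_co

namespace Inst

variable {V : Type}

/-- Contract the ideal `X` to a single source class. -/
def conLow (I : Inst V) (X : Set V) (hX : I.Ideal X) : Inst V where
  A := I.A
  fin := I.fin
  le := fun a b => I.le a b ∨ (a ∈ X ∧ ∃ x ∈ X, I.le x b)
  refl := fun a => Or.inl (I.refl a)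
  trans := by
    rintro a b c (h1 | ⟨h1, x, hx, h2⟩) (h3 | ⟨h3, y, hy, h4⟩)
    · exact Or.inl (I.trans h1 h3)
    · exact Or.inr ⟨hX _ _ h1 h3, y, hy, h4⟩
    · exact Or.inr ⟨h1, x, hx, I.trans h2 h3⟩
    · exact Or.inr ⟨h1, y, hy, h4⟩
  t := I.t
  h := I.h

theorem conLow_le (I : Inst V) (X : Set V) (hX : I.Ideal X) (a b : V) :
    (I.conLow X hX).le a b ↔ I.le a b ∨ (a ∈ X ∧ ∃ x ∈ X, I.le x b) := Iff.rfl

theorem conLow_mu1 [Finite V] (I : Inst V) (X : Set V) (hX : I.Ideal X)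
    (hn : ∃ a ∈ X, ∃ b ∈ X, ¬ I.le a b) : (I.conLow X hX).mu1 < I.mu1 := by
  obtain ⟨a, ha, b, hb, hab⟩ := hn
  apply Set.ncard_lt_ncard _ (Set.toFinite _)
  refine ⟨fun p hp hq => hp ⟨Or.inl hq.1, Or.inl hq.2⟩, fun hs => ?_⟩
  have : (a, b) ∈ {p : V × V | ¬ (I.le p.1 p.2 ∧ I.le p.2 p.1)} := fun h => hab h.1
  exact hs this ⟨Or.inr ⟨ha, b, hb, I.refl b⟩, Or.inr ⟨hb, a, ha, I.refl a⟩⟩

theorem conLow_Ideal {I : Inst V} {X : Set V} {hX : I.Ideal X} {Y : Set V}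
    (hY : (I.conLow X hX).Ideal Y) : I.Ideal Y := fun a b hab hb => hY a b (Or.inl hab) hb

theorem Ideal.conLow_of_disjoint {I : Inst V} {X : Set V} (hX : I.Ideal X) {Y : Set V}
    (hY : I.Ideal Y) (hd : ∀ x ∈ X, x ∉ Y) : (I.conLow X hX).Ideal Y := by
  rintro a b (hab | ⟨_, x, hx, hxb⟩) hb
  · exact hY a b hab hb
  · exact absurd (hY x b hxb hb) (hd x hx)

theorem Ideal.conLow_of_subset {I : Inst V} {X : Set V} (hX : I.Ideal X) {Y : Set V}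
    (hY : I.Ideal Y) (hd : X ⊆ Y) : (I.conLow X hX).Ideal Y := by
  rintro a b (hab | ⟨ha, _⟩) hb
  · exact hY a b hab hb
  · exact hd ha

/-- The sources inside a tight cut cannot be separated. -/
theorem Good.tight_conn [Finite V] {N : ℕ} {I : Inst V} (hI : Good N I) (hN : 0 < N) {X : Set V}
    (hX : I.Cut X) (ht : I.d X ≤ N) (Q : Set V)
    (hQ : ∀ s s' u, I.Mn s → I.Mn s' → s ∈ X → s' ∈ X → I.Mx u → I.le s u → I.le s' u →
      s ∈ Q → s' ∈ Q) :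
    ∀ s s', I.Mn s → I.Mn s' → s ∈ X → s' ∈ X → s ∈ Q → s' ∈ Q := by
  intro s0 s1 hs0 hs1 hs0X hs1X hs0Q
  by_contra hs1Q
  have hQ' : ∀ s s' u, I.Mn s → I.Mn s' → s ∈ X → s' ∈ X → I.le s u → I.le s' u →
      s ∈ Q → s' ∈ Q := by
    intro s s' u h1 h2 h3 h4 h5 h6 h7
    obtain ⟨u', hu', huu'⟩ := I.exists_mx u
    exact hQ s s' u' h1 h2 h3 h4 hu' (I.trans h5 huu') (I.trans h6 huu') h7
  let X1 : Set V := {x | x ∈ X ∧ ∃ s, I.Mn s ∧ I.le s x ∧ s ∈ Q}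
  let X2 : Set V := {x | x ∈ X ∧ ¬ ∃ s, I.Mn s ∧ I.le s x ∧ s ∈ Q}
  have hX1 : I.Cut X1 := by
    refine ⟨?_, ⟨s0, hs0X, s0, hs0, I.refl _, hs0Q⟩, hX.2.2.mono (Set.compl_subset_compl.2 fun y hy => hy.1)⟩
    rintro a b hab ⟨hbX, s, hs, hsb, hsQ⟩
    obtain ⟨s', hs', hs'a⟩ := I.exists_mn a
    have haX := hX.1 _ _ hab hbX
    exact ⟨haX, s', hs', hs'a, hQ' s s' b hs hs' (hX.1 _ _ hsb hbX) (hX.1 _ _ hs'a haX) hsb
      (I.trans hs'a hab) hsQ⟩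
  have hX2 : I.Cut X2 := by
    refine ⟨?_, ⟨s1, hs1X, ?_⟩, hX.2.2.mono (Set.compl_subset_compl.2 fun y hy => hy.1)⟩
    · rintro a b hab ⟨hbX, hb⟩
      refine ⟨hX.1 _ _ hab hbX, ?_⟩
      rintro ⟨s, hs, hsa, hsQ⟩
      exact hb ⟨s, hs, I.trans hsa hab, hsQ⟩
    · rintro ⟨s, hs, hss, hsQ⟩
      exact hs1Q (hQ' s s1 s1 hs hs1 (hX.1 _ _ hss hs1X) hs1X hss (I.refl _) hsQ)
  -- an arc inside `X` has both ends on the same side
  have harc : ∀ a, I.t a ∈ X → I.h a ∈ X →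
      ((∃ s, I.Mn s ∧ I.le s (I.t a) ∧ s ∈ Q) ↔ ∃ s, I.Mn s ∧ I.le s (I.h a) ∧ s ∈ Q) := by
    intro a hta hha
    obtain ⟨u, s, -, hs, h1, h2, h3⟩ := hI.loc.hub a
    have hsX := hX.1 _ _ h3 hha
    constructor
    · rintro ⟨s', hs', h4, h5⟩
      exact ⟨s, hs, h3, hQ' s' s u hs' hs (hX.1 _ _ h4 hta) hsX (I.trans h4 h1) h2 h5⟩
    · rintro ⟨s', hs', h4, h5⟩
      obtain ⟨s'', hs'', h6⟩ := I.exists_mn (I.t a)
      have h7 := hQ' s' s (I.h a) hs' hs (hX.1 _ _ h4 hha) hsX h4 h3 h5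
      exact ⟨s'', hs'', h6, hQ' s s'' u hs hs'' hsX (hX.1 _ _ h6 hta) h2 (I.trans h6 h1) h7⟩
  have hsub : I.Ent X1 ∪ I.Ent X2 ⊆ I.Ent X := by
    rintro a (⟨h1, h2⟩ | ⟨h1, h2⟩)
    · exact ⟨h1.1, fun h3 => h2 ⟨h3, (harc a h3 h1.1).2 h1.2⟩⟩
    · exact ⟨h1.1, fun h3 => h2 ⟨h3, fun h4 => h1.2 ((harc a h3 h1.1).1 h4)⟩⟩
  have hdis : Disjoint (I.Ent X1) (I.Ent X2) := by
    rw [Set.disjoint_left]
    rintro a ⟨h1, _⟩ ⟨h2, _⟩
    exact h2.2 h1.2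
  have h1 := Set.ncard_le_ncard hsub (Set.toFinite _)
  rw [Set.ncard_union_eq hdis (Set.toFinite _) (Set.toFinite _)] at h1
  have h2 := hI.cut _ hX1
  have h3 := hI.cut _ hX2
  unfold d at h2 h3 ht
  omega

theorem Good.conLow [Finite V] {N : ℕ} {I : Inst V} (hI : Good N I) (hN : 0 < N) {X : Set V}
    (hX : I.Cut X) (ht : I.d X ≤ N) : Good N (I.conLow X hX.1) where
  cut := fun Y hY => hI.cut Y ⟨conLow_Ideal hY.1, hY.2⟩
  loc := fun a => by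
    obtain ⟨u, s, h1, h2, h3⟩ := hI.loc a
    exact ⟨u, s, Or.inl h1, Or.inl h2, Or.inl h3⟩
  tree := by
    set J := I.conLow X hX.1 with hJ
    have hmx : ∀ u, J.Mx u → u ∉ X ∧ I.Mx u := by
      intro u hu
      have huX : u ∉ X := by
        intro huX
        refine hI.not_upper hN hX fun a b hab ha => ?_
        rcases hu b (Or.inr ⟨huX, a, ha, hab⟩) with h | h
        · exact hX.1 _ _ h huX
        · exact h.1
      refine ⟨huX, fun y hy => ?_⟩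
      rcases hu y (Or.inl hy) with h | h
      · exact h
      · exact absurd (hX.1 _ _ hy h.1) huX
    have hmn : ∀ s, J.Mn s → s ∉ X → I.Mn s := by
      intro s hs hsX y hy
      rcases hs y (Or.inl hy) with h | h
      · exact h
      · exact absurd h.1 hsX
    have hXX : ∀ a b, a ∈ X → b ∈ X → J.le a b := fun a b ha hb =>
      Or.inr ⟨ha, b, hb, I.refl b⟩
    have hout : ∀ a b, a ∉ X → J.le a b → I.le a b := by
      rintro a b ha (h | h)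
      · exact h
      · exact absurd h.1 ha
    have hJX : ∀ a b, J.le a b → b ∈ X → a ∈ X :=
      hX.1.conLow_of_subset hX.1 (fun _ h => h)
    intro s1 u1 hs1 hu1 hle hnle
    obtain ⟨hu1X, hu1'⟩ := hmx u1 hu1
    let E : Set V := {s | I.Mn s ∧ I.le s u1 ∧ J.le s s1 ∧ J.le s1 s}
    have hE : ∀ s ∈ E, ∃ Q, s ∈ Q ∧ u1 ∉ Q ∧ I.Side s u1 Q := by
      rintro s ⟨h1, h2, h3, _⟩
      exact hI.tree s u1 h1 hu1' h2 fun h => hnle (J.trans (Or.inl h) h3)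
    choose! Qf hQf using hE
    let Qu : Set V := {x | ∃ s ∈ E, x ∈ Qf s}
    have hQu1 : u1 ∉ Qu := fun ⟨s, hs, h⟩ => (hQf s hs).2.1 h
    have hQE : ∀ s ∈ E, s ∈ Qu := fun s hs => ⟨s, hs, (hQf s hs).1⟩
    have hQcl : ∀ a b, I.le a b → I.le b a → a ∈ Qu → b ∈ Qu :=
      fun a b h1 h2 ⟨s, hs, h⟩ => ⟨s, hs, (hQf s hs).2.2.1 a b h1 h2 h⟩
    have hQed : ∀ s' u', I.Mn s' → I.Mx u' → I.le s' u' →
        (s' ∈ Qu ↔ u' ∈ Qu) ∨ (J.le s1 s' ∧ J.le s' s1 ∧ I.le u' u1) := by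
      intro s' u' h1 h2 h3
      by_cases hex : J.le s1 s' ∧ J.le s' s1 ∧ I.le u' u1
      · exact Or.inr hex
      · left
        have : ∀ s ∈ E, (s' ∈ Qf s ↔ u' ∈ Qf s) := by
          intro s hs
          rcases (hQf s hs).2.2.2 s' u' h1 h2 h3 with h | h
          · exact h
          · exact absurd ⟨J.trans hs.2.2.2 (Or.inl h.1),
              J.trans (Or.inl (h1 _ h.1)) hs.2.2.1, h.2⟩ hex
        exact ⟨fun ⟨s, hs, h⟩ => ⟨s, hs, (this s hs).1 h⟩,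
          fun ⟨s, hs, h⟩ => ⟨s, hs, (this s hs).2 h⟩⟩
    have hconn : ∀ s s', I.Mn s → I.Mn s' → s ∈ X → s' ∈ X → s ∈ Qu → s' ∈ Qu := by
      refine hI.tight_conn hN hX ht Qu ?_
      intro s s' u h1 h2 h3 h4 h5 h6 h7 h8
      rcases hQed s' u h2 h5 h7 with h | h
      · rcases hQed s u h1 h5 h6 with h' | h'
        · exact h.2 (h'.1 h8)
        · exact hQE s' ⟨h2, I.trans h7 h'.2.2, J.trans (hXX _ _ h4 h3) h'.2.1,
            J.trans h'.1 (hXX _ _ h3 h4)⟩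
      · exact hQE s' ⟨h2, I.trans h7 h.2.2, h.2.1, h.1⟩
    have hlow : ∀ s' u', s' ∈ X → J.le s' u' → ∃ s'', I.Mn s'' ∧ s'' ∈ X ∧ I.le s'' u' := by
      intro s' u' hs' hsu
      have : ∃ x ∈ X, I.le x u' := by
        rcases hsu with h | h
        · exact ⟨s', hs', h⟩
        · exact h.2
      obtain ⟨x, hx, hxu⟩ := this
      obtain ⟨s'', h1, h2⟩ := I.exists_mn x
      exact ⟨s'', h1, hX.1 _ _ h2 hx, I.trans h2 hxu⟩
    refine ⟨{v | (v ∈ X ∧ ∃ s ∈ X, I.Mn s ∧ s ∈ Qu) ∨ (v ∉ X ∧ v ∈ Qu)}, ?_, ?_, ?_, ?_⟩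
    · by_cases hs1X : s1 ∈ X
      · obtain ⟨s, h1, h2, h3⟩ := hlow s1 u1 hs1X hle
        exact Or.inl ⟨hs1X, s, h2, h1, hQE s ⟨h1, h3, hXX _ _ h2 hs1X, hXX _ _ hs1X h2⟩⟩
      · exact Or.inr ⟨hs1X, hQE s1 ⟨hmn s1 hs1 hs1X, hout _ _ hs1X hle, J.refl _, J.refl _⟩⟩
    · rintro (h | h)
      · exact hu1X h.1
      · exact hQu1 h.2
    · rintro a b hab hba (h | h)
      · exact Or.inl ⟨hJX _ _ hba h.1, h.2⟩
      · have hb : b ∉ X := fun hb => h.1 (hJX _ _ hab hb)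
        exact Or.inr ⟨hb, hQcl a b (hout _ _ h.1 hab) (hout _ _ hb hba) h.2⟩
    · intro s' u' h1 h2 h3
      obtain ⟨hu'X, hu'⟩ := hmx u' h2
      have hu'iff : u' ∈ {v | (v ∈ X ∧ ∃ s ∈ X, I.Mn s ∧ s ∈ Qu) ∨ (v ∉ X ∧ v ∈ Qu)}
          ↔ u' ∈ Qu := ⟨fun h => h.elim (fun h => absurd h.1 hu'X) fun h => h.2,
            fun h => Or.inr ⟨hu'X, h⟩⟩
      rw [hu'iff]
      by_cases hs'X : s' ∈ X
      · obtain ⟨s'', g1, g2, g3⟩ := hlow s' u' hs'X h3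
        rcases hQed s'' u' g1 hu' g3 with h | h
        · left
          rw [← h]
          constructor
          · rintro (⟨_, s, k1, k2, k3⟩ | k)
            · exact hconn s s'' k2 g1 k1 g2 k3
            · exact absurd hs'X k.1
          · intro k
            exact Or.inl ⟨hs'X, s'', g2, g1, k⟩
        · exact Or.inr ⟨J.trans h.1 (hXX _ _ g2 hs'X), Or.inl h.2.2⟩
      · rcases hQed s' u' (hmn s' h1 hs'X) hu' (hout _ _ hs'X h3) with h | h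
        · left
          rw [← h]
          exact ⟨fun h => h.elim (fun h => absurd h.1 hs'X) fun h => h.2,
            fun h => Or.inr ⟨hs'X, h⟩⟩
        · exact Or.inr ⟨h.1, Or.inl h.2.2⟩

theorem exists_perm {A : Type} [Finite A] {N : ℕ} (S : Set A) (hS : S.ncard ≤ N)
    (c1 c2 : A → Fin N) (h1 : ∀ i, ∃ a ∈ S, c1 a = i) (h2 : ∀ i, ∃ a ∈ S, c2 a = i) :
    Set.InjOn c1 S ∧ ∃ σ : Equiv.Perm (Fin N), ∀ a ∈ S, σ (c2 a) = c1 a := by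
  have hb : ∀ c : A → Fin N, (∀ i, ∃ a ∈ S, c a = i) →
      Function.Bijective (fun a : S => c a) := by
    intro c hc
    have hsurj : Function.Surjective (fun a : S => c a) := fun i => by
      obtain ⟨a, ha, hi⟩ := hc i
      exact ⟨⟨a, ha⟩, hi⟩
    rw [Nat.bijective_iff_surjective_and_card]
    refine ⟨hsurj, le_antisymm ?_ (Nat.card_le_card_of_surjective _ hsurj)⟩
    rw [Nat.card_coe_set_eq, Nat.card_eq_fintype_card, Fintype.card_fin]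
    exact hS
  refine ⟨fun a ha b hb' hab => ?_,
    (Equiv.ofBijective _ (hb c2 h2)).symm.trans (Equiv.ofBijective _ (hb c1 h1)), ?_⟩
  · have := (hb c1 h1).1 (a₁ := ⟨a, ha⟩) (a₂ := ⟨b, hb'⟩) hab
    exact congrArg Subtype.val this
  · intro a ha
    have : (Equiv.ofBijective _ (hb c2 h2)).symm (c2 a) = ⟨a, ha⟩ := by
      rw [Equiv.symm_apply_eq]
      rfl
    rw [Equiv.trans_apply, this]
    rfl

/-- Reduction along a nontrivial tight cut. -/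
theorem Good.col_of_tight [Finite V] {N : ℕ} {I : Inst V} (hI : Good N I) (hN : 0 < N)
    (ih : IH N I) {X : Set V} (hX : I.Cut X) (ht : I.d X ≤ N)
    (hn1 : ∃ a ∈ X, ∃ b ∈ X, ¬ I.le a b) (hn2 : ∃ a ∈ Xᶜ, ∃ b ∈ Xᶜ, ¬ I.le a b) : Col N I := by
  classical
  have hX' : I.dual.Cut Xᶜ := (dual_Cut I Xᶜ).2 (by rwa [compl_compl])
  have ht' : I.dual.d Xᶜ ≤ N := by rwa [dual_d, compl_compl]
  obtain ⟨c1, hc1⟩ := ih _ (Or.inl (conLow_mu1 I X hX.1 hn1)) (hI.conLow hN hX ht)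
  obtain ⟨c2, hc2⟩ := ih.dual _ (Or.inl (conLow_mu1 I.dual Xᶜ hX'.1 (by
    obtain ⟨a, ha, b, hb, hab⟩ := hn2
    exact ⟨b, hb, a, ha, hab⟩))) (hI.dual.conLow hN hX' ht')
  have k1 : ∀ i Y, I.Cut Y → ((∀ x ∈ X, x ∉ Y) ∨ X ⊆ Y) → ∃ a ∈ I.Ent Y, c1 a = i := by
    intro i Y hY hc
    refine hc1 i Y ⟨?_, hY.2⟩
    rcases hc with hc | hc
    · exact hX.1.conLow_of_disjoint hY.1 hc
    · exact hX.1.conLow_of_subset hY.1 hc
  have k2 : ∀ i Y, I.Cut Y → ((∀ x ∉ X, x ∈ Y) ∨ Y ⊆ X) → ∃ a ∈ I.Ent Y, c2 a = i := by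
    intro i Y hY hc
    have hY' : I.dual.Cut Yᶜ := (dual_Cut I Yᶜ).2 (by rwa [compl_compl])
    have : (I.dual.conLow Xᶜ hX'.1).Cut Yᶜ := by
      refine ⟨?_, hY'.2⟩
      rcases hc with hc | hc
      · exact hX'.1.conLow_of_disjoint hY'.1 fun x hx hy => hy (hc x hx)
      · exact hX'.1.conLow_of_subset hY'.1 (Set.compl_subset_compl.2 hc)
    obtain ⟨a, ha, hca⟩ := hc2 i _ this
    exact ⟨a, ⟨not_not.1 ha.2, ha.1⟩, hca⟩
  obtain ⟨hinj, σ, hσ⟩ := exists_perm (I.Ent X) ht c1 c2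
    (fun i => k1 i X hX (Or.inr fun _ h => h)) (fun i => k2 i X hX (Or.inr fun _ h => h))
  have k3 : ∀ i Y, I.Cut Y → ((∀ x ∉ X, x ∈ Y) ∨ Y ⊆ X) → ∃ a ∈ I.Ent Y, σ (c2 a) = i := by
    intro i Y hY hc
    obtain ⟨a, ha, hca⟩ := k2 (σ.symm i) Y hY hc
    exact ⟨a, ha, by rw [hca, Equiv.apply_symm_apply]⟩
  let use2 : I.A → Prop := fun a => I.t a ∈ X ∧ (I.h a ∈ X ∨ ∀ y, I.le (I.t a) y → y ∈ X)
  refine ⟨fun a => if use2 a then σ (c2 a) else c1 a, fun i Y hY => ?_⟩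
  by_cases ca : ∀ x ∈ X, x ∉ Y
  · obtain ⟨a, ha, hca⟩ := k1 i Y hY (Or.inl ca)
    refine ⟨a, ha, ?_⟩
    have : ¬ use2 a := by
      rintro ⟨_, h | h⟩
      · exact ca _ h ha.1
      · obtain ⟨u, s, h1, h2, h3⟩ := hI.loc a
        exact ca s (hX.1 _ _ h2 (h u h1)) (hY.1 _ _ h3 ha.1)
    simp only [this, if_false, hca]
  by_cases cb : ∀ x ∉ X, x ∈ Y
  · obtain ⟨a, ha, hca⟩ := k3 i Y hY (Or.inl cb)
    refine ⟨a, ha, ?_⟩
    have hup : ∀ y, I.le (I.t a) y → y ∈ X := by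
      intro y hy
      by_contra hyX
      exact ha.2 (hY.1 _ _ hy (cb y hyX))
    have : use2 a := ⟨hup _ (I.refl _), Or.inr hup⟩
    simp only [this, if_true, hca]
  have hi : I.Cut (X ∩ Y) := by
    refine ⟨fun a b hab hb => ⟨hX.1 a b hab hb.1, hY.1 a b hab hb.2⟩, ?_,
      hX.2.2.mono (Set.compl_subset_compl.2 fun y hy => hy.1)⟩
    by_contra hne
    exact ca fun x hx hy => hne ⟨x, hx, hy⟩
  have hu : I.Cut (X ∪ Y) := by
    refine ⟨?_, hX.2.1.mono Set.subset_union_left, ?_⟩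
    · rintro a b hab (hb | hb)
      · exact Or.inl (hX.1 a b hab hb)
      · exact Or.inr (hY.1 a b hab hb)
    · by_contra hne
      refine cb fun x hx => ?_
      by_contra hy
      exact hne ⟨x, fun h => h.elim hx hy⟩
  obtain ⟨a1, ha1, hc1'⟩ := k3 i _ hi (Or.inr Set.inter_subset_left)
  obtain ⟨a2, ha2, hc2'⟩ := k1 i _ hu (Or.inr Set.subset_union_left)
  have ht2 : I.t a2 ∉ X := fun h => ha2.2 (Or.inl h)
  have ht2' : I.t a2 ∉ Y := fun h => ha2.2 (Or.inr h)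
  by_cases g1 : I.t a1 ∈ Y
  · have g2 : I.t a1 ∉ X := fun h => ha1.2 ⟨h, g1⟩
    have e1 : a1 ∈ I.Ent X := ⟨ha1.1.1, g2⟩
    by_cases g3 : I.h a2 ∈ Y
    · refine ⟨a2, ⟨g3, ht2'⟩, ?_⟩
      have : ¬ use2 a2 := fun h => ht2 h.1
      simp only [this, if_false, hc2']
    · have e2 : a2 ∈ I.Ent X := ⟨ha2.1.resolve_right g3, ht2⟩
      have : a1 = a2 := hinj e1 e2 (by rw [← hσ a1 e1, hc1', hc2'])
      exact absurd (this ▸ g1) ht2'
  · refine ⟨a1, ⟨ha1.1.2, g1⟩, ?_⟩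
    by_cases g2 : I.t a1 ∈ X
    · have : use2 a1 := ⟨g2, Or.inl ha1.1.1⟩
      simp only [this, if_true, hc1']
    · have : ¬ use2 a1 := fun h => g2 h.1
      simp only [this, if_false]
      rw [← hσ a1 ⟨ha1.1.1, g2⟩, hc1']

end Inst

end Pool.Agent.Lib.MP_cbe08d_co
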