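import Mathlib

/-!
Covering an intersecting family of vertex sets several times by arcs
(Edmonds' disjoint branchings theorem in Frank's form, with Lovasz's proof).
-/

set_option autoImplicit false

namespace Pool.Agent.Lib.MP_cbe08d_co

/-- The arcs entering a vertex set. -/
def ent {V A : Type} (t h : A → V) (X : Set V) : Set A := {a | h a ∈ X ∧ t a ∉ X}

theorem ent_submod {V A : Type} [Finite A] (t h : A → V) (R : Set A) (X Y : Set V) :
    (R ∩ ent t h (X ∩ Y)).ncard + (R ∩ ent t h (X ∪ Y)).ncard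
      ≤ (R ∩ ent t h X).ncard + (R ∩ ent t h Y).ncard := by
  rw [← Set.ncard_union_add_ncard_inter (R ∩ ent t h (X ∩ Y)) (R ∩ ent t h (X ∪ Y)),
    ← Set.ncard_union_add_ncard_inter (R ∩ ent t h X) (R ∩ ent t h Y)]
  apply Nat.add_le_add
  · apply Set.ncard_le_ncard _ (Set.toFinite _)
    intro a ha
    simp only [ent, Set.mem_union, Set.mem_inter_iff, Set.mem_ofPred_eq] at ha ⊢
    tauto
  · apply Set.ncard_le_ncard _ (Set.toFinite _)
    intro a ha
    simp only [ent, Set.mem_union, Set.mem_inter_iff, Set.mem_ofPred_eq] at ha ⊢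
    tauto

/-- One step: split off one cover. -/
theorem edmonds_step {V A : Type} [Finite V] [Finite A] (t h : A → V) (F : Set (Set V))
    (hF : ∀ X ∈ F, ∀ Y ∈ F, (X ∩ Y).Nonempty → X ∩ Y ∈ F ∧ X ∪ Y ∈ F)
    (n : ℕ) (R : Set A) (hR : ∀ X ∈ F, n + 1 ≤ (R ∩ ent t h X).ncard) :
    ∃ B : Set A, B ⊆ R ∧ (∀ X ∈ F, (B ∩ ent t h X).Nonempty) ∧
      ∀ X ∈ F, n ≤ ((R \ B) ∩ ent t h X).ncard := by
  classical
  let P : Set (Set A) := {B | B ⊆ R ∧ (∀ X ∈ F, n ≤ ((R \ B) ∩ ent t h X).ncard) ∧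
    ∀ a ∈ B, ∀ Z ∈ F, h a ∈ Z → (B ∩ ent t h Z).Nonempty}
  have hP : P.Nonempty := ⟨∅, Set.empty_subset _, fun X hX => by
    have := hR X hX
    simp only [Set.sdiff_empty]; omega, fun a ha => absurd ha (Set.notMem_empty a)⟩
  obtain ⟨B, ⟨hBR, hBn, hBh⟩, hBmax⟩ :=
    Set.exists_max_image P (fun B => B.ncard) (Set.toFinite _) hP
  refine ⟨B, hBR, ?_, hBn⟩
  by_contra hcon
  push Not at hcon
  let U : Set (Set V) := {Z | Z ∈ F ∧ B ∩ ent t h Z = ∅}
  have hU : U.Nonempty := by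
    obtain ⟨X, hX, hX'⟩ := hcon
    exact ⟨X, hX, hX'⟩
  obtain ⟨Z, ⟨hZF, hZB⟩, hZmax⟩ :=
    Set.exists_max_image U (fun Z => Z.ncard) (Set.toFinite _) hU
  -- no arc of `B` has its head in `Z`
  have hhead : ∀ a ∈ B, h a ∉ Z := by
    intro a ha hz
    have := hBh a ha Z hZF hz
    rw [hZB] at this
    exact Set.not_nonempty_empty this
  -- an arc entering `Z` and entering no critical set
  have hex : ∃ a, a ∈ R ∧ a ∉ B ∧ a ∈ ent t h Z ∧
      ∀ M ∈ F, a ∈ ent t h M → n + 1 ≤ ((R \ B) ∩ ent t h M).ncard := by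
    let C : Set (Set V) := {M | M ∈ F ∧ ((R \ B) ∩ ent t h M).ncard ≤ n ∧ (M ∩ Z).Nonempty}
    by_cases hC : C.Nonempty
    · obtain ⟨M, ⟨hMF, hMn, hMZ⟩, hMmin⟩ :=
        Set.exists_min_image C (fun M => M.ncard) (Set.toFinite _) hC
      have h1 := hR _ (hF M hMF Z hZF hMZ).1
      have h2 : ¬ (R ∩ ent t h (M ∩ Z) ⊆ (R \ B) ∩ ent t h M) := by
        intro hs
        have := Set.ncard_le_ncard hs (Set.toFinite _)
        omega
      rw [Set.not_subset] at h2
      obtain ⟨a, ⟨haR, ⟨haM, haZ⟩, hat⟩, ha2⟩ := h2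
      have haB : a ∉ B := fun hb => hhead a hb haZ
      have htM : t a ∈ M := by
        by_contra hn
        exact ha2 ⟨⟨haR, haB⟩, haM, hn⟩
      have htZ : t a ∉ Z := fun hz => hat ⟨htM, hz⟩
      refine ⟨a, haR, haB, ⟨haZ, htZ⟩, ?_⟩
      intro M' hM'F haM'
      by_contra hlt
      have hne : (M ∩ M').Nonempty := ⟨h a, haM, haM'.1⟩
      obtain ⟨hi, hu⟩ := hF M hMF M' hM'F hne
      have hsub := ent_submod t h (R \ B) M M'
      have hu' := hBn _ hu
      have hmem : M ∩ M' ∈ C := ⟨hi, by omega, ⟨h a, ⟨haM, haM'.1⟩, haZ⟩⟩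
      have hle := hMmin _ hmem
      have hlt' : (M ∩ M').ncard < M.ncard := by
        apply Set.ncard_lt_ncard _ (Set.toFinite _)
        refine ⟨Set.inter_subset_left, fun hs => ?_⟩
        exact haM'.2 (hs htM).2
      omega
    · have h1 := hR Z hZF
      have hne : (R ∩ ent t h Z).Nonempty := by
        rw [← Set.ncard_pos (Set.toFinite _)]; omega
      obtain ⟨a, haR, haZ⟩ := hne
      refine ⟨a, haR, fun hb => hhead a hb haZ.1, haZ, ?_⟩
      intro M hMF haM
      by_contra hlt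
      exact hC ⟨M, hMF, by omega, ⟨h a, haM.1, haZ.1⟩⟩
  obtain ⟨a, haR, haB, haZ, hacrit⟩ := hex
  have hmem : insert a B ∈ P := by
    refine ⟨Set.insert_subset haR hBR, ?_, ?_⟩
    · intro X hX
      by_cases haX : a ∈ ent t h X
      · have h1 := hacrit X hX haX
        have h2 : (R \ B) ∩ ent t h X ⊆ insert a ((R \ insert a B) ∩ ent t h X) := by
          intro b hb
          by_cases hba : b = a
          · exact Or.inl hba
          · refine Or.inr ⟨⟨hb.1.1, ?_⟩, hb.2⟩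
            rintro (h' | h')
            · exact hba h'
            · exact hb.1.2 h'
        have h3 := Set.ncard_le_ncard h2 (Set.toFinite _)
        have h4 := Set.ncard_insert_le a ((R \ insert a B) ∩ ent t h X)
        omega
      · refine le_trans (hBn X hX) (Set.ncard_le_ncard ?_ (Set.toFinite _))
        intro b hb
        refine ⟨⟨hb.1.1, ?_⟩, hb.2⟩
        rintro (h' | h')
        · exact haX (h' ▸ hb.2)
        · exact hb.1.2 h'
    · intro b hb W hW hbW
      rcases hb with rfl | hb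
      · by_contra hne
        rw [Set.not_nonempty_iff_eq_empty] at hne
        have hWB : B ∩ ent t h W = ∅ := by
          rw [Set.eq_empty_iff_forall_notMem] at hne ⊢
          intro c hc
          exact hne c ⟨Or.inr hc.1, hc.2⟩
        have hu := (hF Z hZF W hW ⟨h b, haZ.1, hbW⟩).2
        have hmemU : Z ∪ W ∈ U := by
          refine ⟨hu, ?_⟩
          rw [Set.eq_empty_iff_forall_notMem] at hWB hZB ⊢
          rintro c ⟨hcB, hc1 | hc1, hc2⟩
          · exact hZB c ⟨hcB, hc1, fun h' => hc2 (Or.inl h')⟩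
          · exact hWB c ⟨hcB, hc1, fun h' => hc2 (Or.inr h')⟩
        have hle := hZmax _ hmemU
        have heq : Z = Z ∪ W :=
          Set.eq_of_subset_of_ncard_le Set.subset_union_left hle (Set.toFinite _)
        have htW : t b ∉ W := fun h' => haZ.2 (heq ▸ Or.inr h')
        rw [Set.eq_empty_iff_forall_notMem] at hne
        exact hne b ⟨Or.inl rfl, hbW, htW⟩
      · obtain ⟨c, hc1, hc2⟩ := hBh b hb W hW hbW
        exact ⟨c, Or.inr hc1, hc2⟩
  have hle := hBmax _ hmem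
  rw [Set.ncard_insert_of_notMem haB (Set.toFinite _)] at hle
  omega

theorem edmonds_nat {V A : Type} [Finite V] [Finite A] (t h : A → V) (F : Set (Set V))
    (hF : ∀ X ∈ F, ∀ Y ∈ F, (X ∩ Y).Nonempty → X ∩ Y ∈ F ∧ X ∪ Y ∈ F) (n : ℕ) :
    ∀ R : Set A, (∀ X ∈ F, n ≤ (R ∩ ent t h X).ncard) →
      ∃ c : A → ℕ, ∀ i < n, ∀ X ∈ F, ∃ a ∈ R ∩ ent t h X, c a = i := by
  classical
  induction n with
  | zero => exact fun R _ => ⟨fun _ => 0, fun i hi => absurd hi (Nat.not_lt_zero i)⟩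
  | succ n ih =>
    intro R hR
    obtain ⟨B, hBR, hBc, hBn⟩ := edmonds_step t h F hF n R hR
    obtain ⟨c, hc⟩ := ih (R \ B) hBn
    refine ⟨fun a => if a ∈ B then n else c a, ?_⟩
    intro i hi X hX
    rcases Nat.lt_succ_iff_lt_or_eq.mp hi with hi | rfl
    · obtain ⟨a, ⟨⟨haR, haB⟩, ha⟩, hca⟩ := hc i hi X hX
      exact ⟨a, ⟨haR, ha⟩, by simp [haB, hca]⟩
    · obtain ⟨a, haB, ha⟩ := hBc X hX
      exact ⟨a, ⟨hBR haB, ha⟩, by simp [haB]⟩

/-- An arc set entering every member of an intersecting family at least `n` times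
splits into `n` covers of the family. -/
theorem edmonds {V A : Type} [Finite V] [Finite A] (t h : A → V) (F : Set (Set V))
    (hF : ∀ X ∈ F, ∀ Y ∈ F, (X ∩ Y).Nonempty → X ∩ Y ∈ F ∧ X ∪ Y ∈ F) (n : ℕ) (hn : 0 < n)
    (hR : ∀ X ∈ F, n ≤ (ent t h X).ncard) :
    ∃ c : A → Fin n, ∀ i, ∀ X ∈ F, ∃ a ∈ ent t h X, c a = i := by
  obtain ⟨c, hc⟩ := edmonds_nat t h F hF n Set.univ (by simpa using hR)
  refine ⟨fun a => if hh : c a < n then ⟨c a, hh⟩ else ⟨0, hn⟩, ?_⟩
  intro i X hX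
  obtain ⟨a, ⟨_, ha⟩, hca⟩ := hc i i.2 X hX
  refine ⟨a, ha, ?_⟩
  have : c a < n := hca ▸ i.2
  simp only [this, dif_pos]
  exact Fin.ext hca

end Pool.Agent.Lib.MP_cbe08d_co
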