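import Pool.Agent.Lib.MP_cbe08d_co.Reduce

/-!
The counting argument at a deepest inner vertex of the tree, and the main theorem
for abstract instances.
-/

set_option autoImplicit false

namespace Pool.Agent.Lib.MP_cbe08d_co

namespace Inst

variable {V : Type}

/-- An inner edge `(s, p)` of the tree. -/
def Inner (I : Inst V) (s p : V) : Prop :=
  I.Mn s ∧ I.Mx p ∧ I.le s p ∧ (∃ u, I.Mx u ∧ I.le s u ∧ ¬ I.le u p) ∧
    ∃ z, I.Mn z ∧ I.le z p ∧ ¬ I.le s z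

/-- An inner edge `(s, p)` such that all other neighbours of `s` are leaves. -/
def Leafy (I : Inst V) : Prop :=
  ∃ s p, I.Inner s p ∧
    ∀ u z, I.Mx u → I.le s u → ¬ I.le u p → I.Mn z → I.le z u → I.le s z

theorem Tree.leafy [Finite V] (n : ℕ) : ∀ (I : Inst V) (s p : V) (Q : Set V), Q.ncard = n →
    I.Tree → I.Inner s p → s ∈ Q → p ∉ Q → I.Side s p Q → I.Leafy ∨ I.dual.Leafy := by
  induction n using Nat.strong_induction_on with
  | _ n ih =>
    intro I s p Q hn hT hin hsQ hpQ hQ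
    by_cases hl : ∀ u z, I.Mx u → I.le s u → ¬ I.le u p → I.Mn z → I.le z u → I.le s z
    · exact Or.inl ⟨s, p, hin, hl⟩
    have : ∃ u z, I.Mx u ∧ I.le s u ∧ ¬ I.le u p ∧ I.Mn z ∧ I.le z u ∧ ¬ I.le s z := by
      by_contra hh
      exact hl fun u z h1 h2 h3 h4 h5 => by
        by_contra h6
        exact hh ⟨u, z, h1, h2, h3, h4, h5, h6⟩
    obtain ⟨u, z, h1, h2, h3, h4, h5, h6⟩ := this
    obtain ⟨hs, hp, hsp, -, -⟩ := hin
    obtain ⟨Q0, k1, k2, k3⟩ := hT s u hs h1 h2 fun h => h3 (I.trans h hsp)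
    have huQ : u ∈ Q := by
      rcases hQ.2 s u hs h1 h2 with h | h
      · exact h.1 hsQ
      · exact absurd h.2 h3
    have hside : I.Side s u (Q ∩ Q0ᶜ) := by
      refine ⟨fun a b hab hba ha => ⟨hQ.1 a b hab hba ha.1, k3.compl.1 a b hab hba ha.2⟩, ?_⟩
      intro s' u' g1 g2 g3
      rcases k3.2 s' u' g1 g2 g3 with h | h
      · left
        rcases hQ.2 s' u' g1 g2 g3 with h' | h'
        · exact and_congr h' (not_congr h)
        · constructor
          · intro k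
            exact absurd (k3.1 _ _ h'.1 (g1 _ h'.1) k1) k.2
          · intro k
            exact absurd (hQ.1 _ _ h'.2 (g2 _ h'.2) k.1) hpQ
      · exact Or.inr h
    have hlt : (Q ∩ Q0ᶜ).ncard < n := by
      rw [← hn]
      exact Set.ncard_lt_ncard ⟨Set.inter_subset_left, fun hsub => (hsub hsQ).2 k1⟩
        (Set.toFinite _)
    have hin' : I.dual.Inner u s :=
      ⟨h1, hs, h2, ⟨z, h4, h5, h6⟩, p, hp, hsp, fun h => h3 (hp _ h)⟩
    exact (ih _ hlt I.dual u s _ rfl hT.dual hin' ⟨huQ, k2⟩ (fun h => h.2 k1) hside.dual).symm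

theorem Good.top_or_bot [Finite V] {N : ℕ} {I : Inst V} (hI : Good N I) (hN : 0 < N) (x0 : V)
    (hno : ∀ s p, ¬ I.Inner s p) : (∃ s, ∀ x, I.le s x) ∨ ∃ p, ∀ x, I.le x p := by
  obtain ⟨s, hs, -⟩ := I.exists_mn x0
  have huniv : ∀ Z : Set V, I.Ideal Z → Z.Nonempty → (∀ a b, I.le a b → a ∈ Z → b ∈ Z) →
      ∀ x, x ∈ Z := by
    intro Z h1 h2 h3 x
    by_contra hx
    exact hI.not_upper hN ⟨h1, h2, x, hx⟩ h3
  by_cases hA : ∀ p z, I.Mx p → I.le s p → I.Mn z → I.le z p → I.le s z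
  · left
    refine ⟨s, huniv {x | I.le s x} ?_ ⟨s, I.refl s⟩ fun a b hab ha => I.trans ha hab⟩
    intro a b hab hb
    obtain ⟨p, hp, hbp⟩ := I.exists_mx b
    obtain ⟨z, hz, hza⟩ := I.exists_mn a
    exact I.trans (hA p z hp (I.trans hb hbp) hz (I.trans hza (I.trans hab hbp))) hza
  · right
    have : ∃ p z, I.Mx p ∧ I.le s p ∧ I.Mn z ∧ I.le z p ∧ ¬ I.le s z := by
      by_contra hh
      exact hA fun p z h1 h2 h3 h4 => by
        by_contra h5
        exact hh ⟨p, z, h1, h2, h3, h4, h5⟩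
    obtain ⟨p, z, h1, h2, h3, h4, h5⟩ := this
    refine ⟨p, huniv {x | I.le x p} (fun a b hab hb => I.trans hab hb) ⟨p, I.refl p⟩ ?_⟩
    intro a b hab ha
    obtain ⟨q, hq, hbq⟩ := I.exists_mx b
    obtain ⟨y, hy, hya⟩ := I.exists_mn a
    by_contra hb
    refine hno y p ⟨hy, h1, I.trans hya ha,
      ⟨q, hq, I.trans hya (I.trans hab hbq), fun h => hb (I.trans hbq h)⟩, ?_⟩
    by_cases hys : I.le y s
    · exact ⟨z, h3, h4, fun h => h5 (I.trans (hs _ hys) h)⟩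
    · exact ⟨s, hs, h2, hys⟩

theorem Good.not_leafy [Finite V] {N : ℕ} {I : Inst V} (hI : Good N I) (hp : Prime N I)
    (hc : Crit N I) (hhub : ∀ v, ¬ I.Mid v) : ¬ I.Leafy := by
  rintro ⟨s, p, ⟨hs, hpm, hsp, ⟨u0, hu0, hsu0, hu0p⟩, z, hz, hzp, hsz⟩, hleaf⟩
  have hmx : ∀ v, I.le s v → ¬ I.le v s → I.Mx v := by
    intro v h1 h2
    by_contra h3
    exact hhub v ⟨fun h => h2 (h s h1), h3⟩
  let S : Set V := {x | I.le x s}
  let P : Set V := {x | I.le p x}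
  let L : Set V := {x | I.le s x ∧ ¬ I.le x s ∧ ¬ I.le x p}
  have hLmx : ∀ x ∈ L, I.Mx x := fun x hx => hmx x hx.1 hx.2.1
  have hLlow : ∀ x ∈ L, ∀ y, I.le y x → I.le s y := by
    intro x hx y hy
    obtain ⟨y', h1, h2⟩ := I.exists_mn y
    exact I.trans (hleaf x y' (hLmx x hx) hx.1 hx.2.2 h1 (I.trans h2 hy)) h2
  have hu0L : u0 ∈ L := ⟨hsu0, fun h => hu0p (I.trans h hsp), hu0p⟩
  have hps : ¬ I.le p s := fun h => hsz (hs _ (I.trans hzp h))
  have hpz : ¬ I.le p z := fun h => hsz (I.trans hsp h)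
  have hzs : ¬ I.le z s := fun h => hsz (hs _ h)
  -- an element above `s` lies in `S`, `L` or `P`
  have htri : ∀ x, I.le s x → x ∉ S → x ∉ L → x ∈ P := by
    intro x h1 h2 h3
    by_contra h4
    exact h3 ⟨h1, h2, fun h => h4 (hmx x h1 h2 _ h)⟩
  have hS : I.Cut S := ⟨fun a b hab hb => I.trans hab hb, ⟨s, I.refl s⟩, p, hps⟩
  have hX : I.Cut (S ∪ L) := by
    refine ⟨?_, ⟨s, Or.inl (I.refl s)⟩, p, fun h => h.elim hps fun h => h.2.2 (I.refl p)⟩
    rintro a b hab (hb | hb)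
    · exact Or.inl (I.trans hab hb)
    · by_cases ha : I.le a s
      · exact Or.inl ha
      · have h1 := hLlow b hb a hab
        exact Or.inr ⟨h1, ha, fun h => hb.2.2 (I.trans (hmx a h1 ha _ hab) h)⟩
  have hY : I.Cut (P ∪ L)ᶜ := by
    refine ⟨?_, ⟨s, fun h => h.elim hps fun h => h.2.1 (I.refl s)⟩, p,
      fun h => h (Or.inl (I.refl p))⟩
    rintro a b hab hb (ha | ha)
    · exact hb (Or.inl (I.trans ha hab))
    · have h1 := hLmx a ha b hab
      exact hb (Or.inr ⟨I.trans ha.1 hab, fun h => ha.2.1 (I.trans hab h),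
        fun h => ha.2.2 (I.trans hab h)⟩)
  have dX : N + 1 ≤ I.d (S ∪ L) := hp _ hX
    ⟨u0, Or.inr hu0L, s, Or.inl (I.refl s), hu0L.2.1⟩
    ⟨p, fun h => h.elim hps fun h => h.2.2 (I.refl p), z,
      fun h => h.elim hzs fun h => hsz h.1, hpz⟩
  have dY : N + 1 ≤ I.d (P ∪ L)ᶜ := hp _ hY
    ⟨s, fun h => h.elim hps fun h => h.2.1 (I.refl s), z,
      fun h => h.elim hpz fun h => hsz h.1, hsz⟩
    ⟨u0, fun h => h (Or.inr hu0L), p, fun h => h (Or.inl (I.refl p)), hu0p⟩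
  -- classification of the arcs entering `S ∪ L`
  have hcl : ∀ a ∈ I.Ent (S ∪ L), (I.h a ∈ S ∧ I.d S ≤ N) ∨ (I.t a ∈ P ∧ I.d Pᶜ ≤ N) := by
    intro a ha
    obtain ⟨Z, hZ, haZ, hd⟩ := hc a fun e => ha.2 (e ▸ ha.1)
    have hsh : I.le s (I.h a) := ha.1.elim (fun h => hs _ h) fun h => h.1
    have hsZ : s ∈ Z := hZ.1 _ _ hsh haZ.1
    by_cases c1 : ∃ x ∈ Z, ∃ y ∈ Z, ¬ I.le x y
    · right
      have c2 : ∀ x ∉ Z, ∀ y ∉ Z, I.le x y := by
        intro x hx y hy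
        by_contra hxy
        have := hp Z hZ c1 ⟨x, hx, y, hy, hxy⟩
        omega
      have hup : ∀ y, I.le (I.t a) y → y ∉ Z := fun y hy h => haZ.2 (hZ.1 _ _ hy h)
      obtain ⟨u, s', k1, k2, k3⟩ := hI.loc a
      have hss' : I.le s s' := ha.1.elim (fun h => hs _ (I.trans k3 h)) fun h => hLlow _ h _ k3
      have hst : I.le s (I.t a) := I.trans hss' (I.trans k2 (c2 u (hup u k1) _ haZ.2))
      have htP : I.t a ∈ P := htri _ hst (fun h => ha.2 (Or.inl h)) fun h => ha.2 (Or.inr h)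
      refine ⟨htP, ?_⟩
      have : Z = Pᶜ := by
        ext x
        constructor
        · intro hx hxP
          exact haZ.2 (hZ.1 _ _ (I.trans (hpm _ htP) hxP) hx)
        · intro hx
          by_contra hxZ
          exact hx (I.trans htP (c2 _ haZ.2 _ hxZ))
      rwa [← this]
    · left
      have c2 : ∀ x ∈ Z, ∀ y ∈ Z, I.le x y := by
        intro x hx y hy
        by_contra hxy
        exact c1 ⟨x, hx, y, hy, hxy⟩
      refine ⟨c2 _ haZ.1 _ hsZ, ?_⟩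
      have : Z = S := by
        ext x
        exact ⟨fun hx => c2 _ hx _ hsZ, fun hx => hZ.1 _ _ hx hsZ⟩
      rwa [← this]
  have hSP : ∀ x ∈ S ∪ L, x ∉ P := by
    rintro x (hx | hx) hxP
    · exact hps (I.trans hxP hx)
    · exact hx.2.2 (hpm _ hxP)
  by_cases hSt : I.d S ≤ N
  · let B : Set I.A := {a | I.h a ∈ L ∧ I.t a ∈ P}
    let A0 : Set I.A := {a | I.t a ∈ L ∧ I.h a ∈ S}
    have e1 : I.Ent (S ∪ L) ∪ A0 ⊆ I.Ent S ∪ B := by
      rintro a (ha | ha)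
      · rcases ha.1 with h | h
        · exact Or.inl ⟨h, fun k => ha.2 (Or.inl k)⟩
        · rcases hcl a ha with k | k
          · exact absurd k.1 h.2.1
          · exact Or.inr ⟨h, k.1⟩
      · exact Or.inl ⟨ha.2, ha.1.2.1⟩
    have e1' : Disjoint (I.Ent (S ∪ L)) A0 :=
      Set.disjoint_left.2 fun a ha hb => ha.2 (Or.inr hb.1)
    have e2 : I.Ent (P ∪ L)ᶜ ∪ B ⊆ I.Ent Pᶜ ∪ A0 := by
      rintro a (ha | ha)
      · rcases not_not.1 ha.2 with h | h
        · exact Or.inl ⟨fun k => ha.1 (Or.inl k), fun k => k h⟩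
        · refine Or.inr ⟨h, ?_⟩
          obtain ⟨u, s', k1, k2, k3⟩ := hI.loc a
          have := I.trans (hLlow _ h s' (I.trans k2 (hLmx _ h _ k1))) k3
          by_contra k
          exact ha.1 (Or.inl (htri _ this k fun k' => ha.1 (Or.inr k')))
      · exact Or.inl ⟨hSP _ (Or.inr ha.1), fun k => k ha.2⟩
    have e2' : Disjoint (I.Ent (P ∪ L)ᶜ) B :=
      Set.disjoint_left.2 fun a ha hb => ha.1 (Or.inr hb.1)
    have n1 := Set.ncard_le_ncard e1 (Set.toFinite _)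
    have n2 := Set.ncard_le_ncard e2 (Set.toFinite _)
    rw [Set.ncard_union_eq e1' (Set.toFinite _) (Set.toFinite _)] at n1
    rw [Set.ncard_union_eq e2' (Set.toFinite _) (Set.toFinite _)] at n2
    have n3 := Set.ncard_union_le (I.Ent S) B
    have n4 := Set.ncard_union_le (I.Ent Pᶜ) A0
    have hB : B.Nonempty := by
      rw [← Set.ncard_pos (Set.toFinite _)]
      unfold d at dX hSt
      omega
    obtain ⟨a, ha⟩ := hB
    have hP : I.d Pᶜ ≤ N := by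
      rcases hcl a ⟨Or.inr ha.1, fun k => hSP _ k ha.2⟩ with k | k
      · exact absurd k.1 ha.1.2.1
      · exact k.2
    unfold d at dX dY hSt hP
    omega
  · have hne : (I.Ent (S ∪ L)).Nonempty := by
      rw [← Set.ncard_pos (Set.toFinite _)]
      unfold d at dX
      omega
    obtain ⟨a, ha⟩ := hne
    have hP : I.d Pᶜ ≤ N := ((hcl a ha).resolve_left fun k => hSt k.2).2
    have e1 : I.Ent (S ∪ L) ⊆ I.Ent Pᶜ := fun a ha =>
      ⟨hSP _ ha.1, fun k => k ((hcl a ha).resolve_left fun k => hSt k.2).1⟩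
    have n1 := Set.ncard_le_ncard e1 (Set.toFinite _)
    unfold d at dX hP
    omega

/-- Main theorem for abstract instances. -/
theorem Good.col [Finite V] {N : ℕ} (hN : 0 < N) {I : Inst V} (hI : Good N I) : Col N I := by
  refine induct (fun I ih hI => ?_) I hI
  by_cases hp : Prime N I
  swap
  · have : ∃ X, I.Cut X ∧ (∃ a ∈ X, ∃ b ∈ X, ¬ I.le a b) ∧ (∃ a ∈ Xᶜ, ∃ b ∈ Xᶜ, ¬ I.le a b) ∧
        I.d X ≤ N := by
      by_contra hh
      refine hp fun X h1 h2 h3 => ?_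
      by_contra h4
      exact hh ⟨X, h1, h2, h3, by omega⟩
    obtain ⟨X, h1, h2, h3, h4⟩ := this
    exact hI.col_of_tight hN ih h1 h4 h2 h3
  by_cases hc : Crit N I
  swap
  · exact hI.col_of_not_crit ih hc
  by_cases hhub : ∀ v, ¬ I.Mid v
  swap
  · obtain ⟨v, hv⟩ := not_forall.1 hhub
    have hv := not_not.1 hv
    rcases hI.tree.dichotomy v with ⟨s, h1, h2, h3⟩ | ⟨u, h1, h2, h3⟩
    · exact hI.col_of_mid ih hp v s hv h1 h2 h3
    · exact (hI.dual.col_of_mid ih.dual hp.dual v u ((dual_Mid I v).2 hv) h1 h2 h3).of_dual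
  by_cases hin : ∃ s p, I.Inner s p
  · exfalso
    obtain ⟨s, p, hsp⟩ := hin
    obtain ⟨u, hu1, hu2, hu3⟩ := hsp.2.2.2.1
    obtain ⟨z, hz1, hz2, hz3⟩ := hsp.2.2.2.2
    obtain ⟨Q, k1, k2, k3⟩ := hI.tree s p hsp.1 hsp.2.1 hsp.2.2.1
      fun h => hz3 (hsp.1 _ (I.trans hz2 h))
    rcases Tree.leafy _ I s p Q rfl hI.tree hsp k1 k2 k3 with h | h
    · exact hI.not_leafy hp hc hhub h
    · exact hI.dual.not_leafy hp.dual hc.dual (fun v hv => hhub v ((dual_Mid I v).1 hv)) h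
  rcases isEmpty_or_nonempty V with hV | ⟨⟨x0⟩⟩
  · exact ⟨fun _ => ⟨0, hN⟩, fun i X hX => by
      obtain ⟨x, _⟩ := hX.2.1
      exact hV.elim x⟩
  rcases hI.top_or_bot hN x0 (fun s p h => hin ⟨s, p, h⟩) with ⟨s, hs⟩ | ⟨p, hp'⟩
  · exact (hI.dual.col_of_top hN s hs).of_dual
  · exact hI.col_of_top hN p hp'

end Inst

end Pool.Agent.Lib.MP_cbe08d_co
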