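import Pool.Agent.Lib.MP_cbe08d_co.Comp

/-!
The Edmonds-Giles packing property (f(k) = k) for digraphs whose
source-sink reachability graph is a forest.
-/

set_option autoImplicit false

namespace Pool.Agent.Lib.MP_cbe08d_co.Forest

/-- `Reach tail head x y`: there is a directed path (possibly of length zero) from `x` to `y`. -/
def Reach {V A : Type} (tail head : A → V) : V → V → Prop :=
  Relation.ReflTransGen fun x y => ∃ a : A, tail a = x ∧ head a = y

/-- Two vertices are equivalent when each reaches the other; the classes are the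
strongly connected components. -/
def strongSetoid {V A : Type} (tail head : A → V) : Setoid V where
  r x y := Reach tail head x y ∧ Reach tail head y x
  iseqv := ⟨fun _ => ⟨Relation.ReflTransGen.refl, Relation.ReflTransGen.refl⟩,
    fun h => ⟨h.2, h.1⟩,
    fun h1 h2 => ⟨Relation.ReflTransGen.trans h1.1 h2.1, Relation.ReflTransGen.trans h2.2 h1.2⟩⟩

/-- The source-sink reachability graph: its vertices are the strong components, and a source
component (nothing outside reaches it) is joined to a different sink component
(it reaches nothing outside) when the former reaches the latter. -/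
def sourceSinkGraph {V A : Type} (tail head : A → V) :
    SimpleGraph (Quotient (strongSetoid tail head)) :=
  SimpleGraph.fromRel fun C D => ∃ s u : V,
    Quotient.mk (strongSetoid tail head) s = C ∧ Quotient.mk (strongSetoid tail head) u = D ∧
    (∀ x, Reach tail head x s → Reach tail head s x) ∧
    (∀ x, Reach tail head u x → Reach tail head x u) ∧ Reach tail head s u

open Pool.Agent.Lib.MP_cbe08d_co in
theorem forest_eg :
    ∀ k : ℕ, 0 < k →
      ∀ (V A : Type) [Finite V] [Finite A] (tail head : A → V) (J : Set A),
        (sourceSinkGraph tail head).IsAcyclic →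
        (∀ S : Set V, (∀ a : A, head a ∈ S → tail a ∈ S) →
            (∃ a : A, tail a ∈ S ∧ head a ∉ S) →
            k ≤ Set.ncard {a : A | a ∈ J ∧ tail a ∈ S ∧ head a ∉ S}) →
        ∃ c : A → Fin k, ∀ i : Fin k, ∀ S : Set V,
            (∀ a : A, head a ∈ S → tail a ∈ S) →
            (∃ a : A, tail a ∈ S ∧ head a ∉ S) →
            ∃ a : A, a ∈ J ∧ c a = i ∧ tail a ∈ S ∧ head a ∉ S := by
  intro k hk V A _ _ tail head J hG hJ
  classical
  let I : Inst V :=
    { A := A
      fin := inferInstance
      le := Reach tail head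
      refl := fun _ => Relation.ReflTransGen.refl
      trans := fun h1 h2 => Relation.ReflTransGen.trans h1 h2
      t := fun a => if a ∈ J then head a else tail a
      h := tail }
  have harc : ∀ a, Reach tail head (tail a) (head a) := fun a =>
    Relation.ReflTransGen.single ⟨a, rfl, rfl⟩
  have hideal : ∀ S : Set V, (∀ a : A, head a ∈ S → tail a ∈ S) → I.Ideal S := by
    intro S hS a b hab hb
    induction hab with
    | refl => exact hb
    | tail _ h ih =>
      obtain ⟨e, rfl, rfl⟩ := h
      exact ih (hS e hb)
  have hent : ∀ S : Set V, I.Ent S = {a : A | a ∈ J ∧ tail a ∈ S ∧ head a ∉ S} := by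
    intro S
    ext a
    change (tail a ∈ S ∧ (if a ∈ J then head a else tail a) ∉ S) ↔
      (a ∈ J ∧ tail a ∈ S ∧ head a ∉ S)
    by_cases ha : a ∈ J
    · simp [ha]
    · simp [ha]
  have hcut : ∀ X, I.Ideal X → (∃ a b, I.le a b ∧ a ∈ X ∧ b ∉ X) → k ≤ I.d X := by
    rintro X hX ⟨a, b, hab, ha, hb⟩
    have h1 : ∃ e : A, tail e ∈ X ∧ head e ∉ X := by
      by_contra hcon
      apply hb
      clear hb
      induction hab with
      | refl => exact ha
      | tail _ h ih =>
        obtain ⟨e, rfl, rfl⟩ := h
        by_contra h'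
        exact hcon ⟨e, ih, h'⟩
    unfold Inst.d
    rw [hent]
    exact hJ X (fun e he => hX _ _ (harc e) he) h1
  have hloc : I.Loc := by
    intro a
    refine ⟨head a, tail a, ?_, harc a, I.refl _⟩
    change Reach tail head (if a ∈ J then head a else tail a) (head a)
    split_ifs
    · exact Relation.ReflTransGen.refl
    · exact harc a
  have htree : I.Tree := by
    intro s u hs hu hsu hus
    let q : V → Quotient (strongSetoid tail head) := Quotient.mk (strongSetoid tail head)
    have hadj : ∀ s' u', I.Mn s' → I.Mx u' → I.le s' u' → q s' ≠ q u' →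
        (sourceSinkGraph tail head).Adj (q s') (q u') := fun s' u' h1 h2 h3 h4 =>
      (SimpleGraph.fromRel_adj _ _ _).2 ⟨h4, Or.inl ⟨s', u', rfl, rfl, h1, h2, h3⟩⟩
    have hbr := SimpleGraph.isBridge_iff.1 (SimpleGraph.isAcyclic_iff_forall_adj_isBridge.1 hG
      (hadj s u hs hu hsu fun h => hus (Quotient.exact h).2))
    refine ⟨{x | ((sourceSinkGraph tail head).deleteEdges {s(q s, q u)}).Reachable (q s) (q x)},
      SimpleGraph.Reachable.refl _, hbr, ?_, ?_⟩
    · intro a b hab hba ha
      have : q a = q b := Quotient.sound ⟨hab, hba⟩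
      rw [Set.mem_ofPred_eq, ← this]
      exact ha
    · intro s' u' h1 h2 h3
      by_cases e : q s' = q u'
      · left
        rw [Set.mem_ofPred_eq, Set.mem_ofPred_eq, e]
      by_cases e' : s(q s', q u') = s(q s, q u)
      · rcases Sym2.eq_iff.1 e' with h | h
        · exact Or.inr ⟨(Quotient.exact h.1).2, (Quotient.exact h.2).1⟩
        · exact absurd
            (I.trans (Quotient.exact h.1).2 (h1 _ (I.trans hsu (Quotient.exact h.1).2))) hus
      · left
        have : ((sourceSinkGraph tail head).deleteEdges {s(q s, q u)}).Adj (q s') (q u') :=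
          SimpleGraph.deleteEdges_adj.2 ⟨hadj s' u' h1 h2 h3 e, e'⟩
        exact ⟨fun h => h.trans this.reachable, fun h => h.trans this.symm.reachable⟩
  obtain ⟨c, hc⟩ := Inst.col_of_components hk I hcut hloc htree
  refine ⟨c, fun i S hS ⟨e, he1, he2⟩ => ?_⟩
  obtain ⟨a, ha, hca⟩ := hc i S (hideal S hS) ⟨tail e, head e, harc e, he1, he2⟩
  rw [hent] at ha
  exact ⟨a, ha.1, hca, ha.2⟩

end Pool.Agent.Lib.MP_cbe08d_co.Forest
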