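import Pool.Agent.Lib.MP_cbe08d_co.Edmonds

/-!
Abstract instances: a preorder on a finite vertex set (the reachability order of the digraph)
together with a finite family of arcs (the reversed arcs of the dijoin, and more general
`zigzag` arcs produced by the reductions).
-/

set_option autoImplicit false

namespace Pool.Agent.Lib.MP_cbe08d_co

/-- A preorder on `V` and a finite family of arcs. -/
structure Inst (V : Type) : Type 1 where
  A : Type
  fin : Finite A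
  le : V → V → Prop
  refl : ∀ a, le a a
  trans : ∀ {a b c}, le a b → le b c → le a c
  t : A → V
  h : A → V

namespace Inst

variable {V : Type}

instance (I : Inst V) : Finite I.A := I.fin

def Ideal (I : Inst V) (X : Set V) : Prop := ∀ a b, I.le a b → b ∈ X → a ∈ X

def Cut (I : Inst V) (X : Set V) : Prop := I.Ideal X ∧ X.Nonempty ∧ Xᶜ.Nonempty

def Ent (I : Inst V) (X : Set V) : Set I.A := ent I.t I.h X

noncomputable def d (I : Inst V) (X : Set V) : ℕ := (I.Ent X).ncard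

def Mn (I : Inst V) (s : V) : Prop := ∀ x, I.le x s → I.le s x

def Mx (I : Inst V) (u : V) : Prop := ∀ x, I.le u x → I.le x u

/-- `Q` is a union of classes and the only source-sink pair separated by `Q` is `(s, u)`. -/
def Side (I : Inst V) (s u : V) (Q : Set V) : Prop :=
  (∀ a b, I.le a b → I.le b a → a ∈ Q → b ∈ Q) ∧
  ∀ s' u', I.Mn s' → I.Mx u' → I.le s' u' → (s' ∈ Q ↔ u' ∈ Q) ∨ (I.le s s' ∧ I.le u' u)

def Tree (I : Inst V) : Prop :=
  ∀ s u, I.Mn s → I.Mx u → I.le s u → ¬ I.le u s → ∃ Q, s ∈ Q ∧ u ∉ Q ∧ I.Side s u Q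

def Loc (I : Inst V) : Prop := ∀ a, ∃ u s, I.le (I.t a) u ∧ I.le s u ∧ I.le s (I.h a)

structure Good (N : ℕ) (I : Inst V) : Prop where
  cut : ∀ X, I.Cut X → N ≤ I.d X
  loc : I.Loc
  tree : I.Tree

def Col (N : ℕ) (I : Inst V) : Prop :=
  ∃ c : I.A → Fin N, ∀ i X, I.Cut X → ∃ a ∈ I.Ent X, c a = i

def dual (I : Inst V) : Inst V where
  A := I.A
  fin := I.fin
  le := fun a b => I.le b a
  refl := I.refl
  trans := fun h1 h2 => I.trans h2 h1
  t := I.h
  h := I.t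

theorem dual_dual (I : Inst V) : I.dual.dual = I := rfl

theorem mem_Ent (I : Inst V) (X : Set V) (a : I.A) : a ∈ I.Ent X ↔ I.h a ∈ X ∧ I.t a ∉ X :=
  Iff.rfl

theorem dual_Ent (I : Inst V) (X : Set V) : I.dual.Ent X = I.Ent Xᶜ := by
  ext a
  change (I.t a ∈ X ∧ I.h a ∉ X) ↔ (I.h a ∈ Xᶜ ∧ I.t a ∉ Xᶜ)
  simp only [Set.mem_compl_iff, not_not]
  exact and_comm

theorem dual_d (I : Inst V) (X : Set V) : I.dual.d X = I.d Xᶜ := by
  unfold d
  rw [dual_Ent]
  rfl

theorem dual_Ideal (I : Inst V) (X : Set V) : I.dual.Ideal X ↔ I.Ideal Xᶜ := by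
  constructor
  · intro hX a b hab hb ha
    exact hb (hX b a hab ha)
  · intro hX a b hab hb
    by_contra ha
    exact hX b a hab ha hb

theorem dual_Cut (I : Inst V) (X : Set V) : I.dual.Cut X ↔ I.Cut Xᶜ := by
  unfold Cut
  rw [dual_Ideal, compl_compl]
  tauto

theorem Side.compl {I : Inst V} {s u : V} {Q : Set V} (hQ : I.Side s u Q) : I.Side s u Qᶜ := by
  refine ⟨fun a b hab hba ha hb => ha (hQ.1 b a hba hab hb), fun s' u' h1 h2 h3 => ?_⟩
  rcases hQ.2 s' u' h1 h2 h3 with h | h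
  · left
    simp only [Set.mem_compl_iff]
    exact not_congr h
  · exact Or.inr h

theorem Side.dual {I : Inst V} {s u : V} {Q : Set V} (hQ : I.Side s u Q) :
    I.dual.Side u s Q := by
  refine ⟨fun a b hab hba ha => hQ.1 a b hba hab ha, fun s' u' h1 h2 h3 => ?_⟩
  rcases hQ.2 u' s' h2 h1 h3 with h | h
  · exact Or.inl h.symm
  · exact Or.inr ⟨h.2, h.1⟩

theorem Tree.dual {I : Inst V} (hI : I.Tree) : I.dual.Tree := by
  intro s u hs hu hsu hus
  obtain ⟨Q, h1, h2, h3⟩ := hI u s hu hs hsu hus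
  exact ⟨Qᶜ, h2, fun h => h h1, h3.compl.dual⟩

theorem Good.dual {N : ℕ} {I : Inst V} (hI : Good N I) : Good N I.dual where
  cut := fun X hX => by
    rw [dual_d]
    exact hI.cut _ ((dual_Cut I X).1 hX)
  loc := fun a => by
    obtain ⟨u, s, h1, h2, h3⟩ := hI.loc a
    exact ⟨s, u, h3, h2, h1⟩
  tree := hI.tree.dual

theorem Col.of_dual {N : ℕ} {I : Inst V} (hI : Col N I.dual) : Col N I := by
  obtain ⟨c, hc⟩ := hI
  refine ⟨c, fun i X hX => ?_⟩
  obtain ⟨a, ha, hca⟩ := hc i Xᶜ ((dual_Cut I Xᶜ).2 (by rwa [compl_compl]))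
  rw [dual_Ent, compl_compl] at ha
  exact ⟨a, ha, hca⟩

theorem exists_mn [Finite V] (I : Inst V) (x : V) : ∃ s, I.Mn s ∧ I.le s x := by
  obtain ⟨s, hs, hmin⟩ := Set.exists_min_image {y | I.le y x}
    (fun y => {z | I.le z y}.ncard) (Set.toFinite _) ⟨x, I.refl x⟩
  refine ⟨s, fun y hy => ?_, hs⟩
  have hle := hmin y (I.trans hy hs)
  have hsub : {z | I.le z y} ⊆ {z | I.le z s} := fun z hz => I.trans hz hy
  have heq := Set.eq_of_subset_of_ncard_le hsub hle (Set.toFinite _)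
  have : s ∈ {z | I.le z y} := by
    rw [heq]
    exact I.refl s
  exact this

theorem exists_mx [Finite V] (I : Inst V) (x : V) : ∃ u, I.Mx u ∧ I.le x u :=
  I.dual.exists_mn x

theorem Loc.hub [Finite V] {I : Inst V} (hI : I.Loc) (a : I.A) :
    ∃ u s, I.Mx u ∧ I.Mn s ∧ I.le (I.t a) u ∧ I.le s u ∧ I.le s (I.h a) := by
  obtain ⟨u, s, h1, h2, h3⟩ := hI a
  obtain ⟨u', hu', hu⟩ := I.exists_mx u
  obtain ⟨s', hs', hs⟩ := I.exists_mn s
  exact ⟨u', s', hu', hs', I.trans h1 hu, I.trans hs (I.trans h2 hu), I.trans hs h3⟩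

/-- A cut is never an upper set. -/
theorem Good.not_upper {N : ℕ} {I : Inst V} (hI : Good N I) (hN : 0 < N) {X : Set V}
    (hX : I.Cut X) (hup : ∀ a b, I.le a b → a ∈ X → b ∈ X) : False := by
  have h1 := hI.cut X hX
  have hne : (I.Ent X).Nonempty := by
    rw [← Set.ncard_pos (Set.toFinite _)]
    exact lt_of_lt_of_le hN h1
  obtain ⟨a, ha1, ha2⟩ := hne
  obtain ⟨u, s, h1, h2, h3⟩ := hI.loc a
  exact ha2 (hX.1 _ _ h1 (hup _ _ h2 (hX.1 _ _ h3 ha1)))

/-- Below any vertex there is one source class, or above it there is one sink class. -/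
theorem Tree.dichotomy [Finite V] {I : Inst V} (hI : I.Tree) (v : V) :
    (∃ s, I.Mn s ∧ I.le s v ∧ ∀ s', I.Mn s' → I.le s' v → I.le s s') ∨
    (∃ u, I.Mx u ∧ I.le v u ∧ ∀ u', I.Mx u' → I.le v u' → I.le u' u) := by
  obtain ⟨s, hs, hsv⟩ := I.exists_mn v
  obtain ⟨u, hu, hvu⟩ := I.exists_mx v
  by_contra hcon
  rw [not_or] at hcon
  obtain ⟨h1, h2⟩ := hcon
  have h1' : ∃ s', I.Mn s' ∧ I.le s' v ∧ ¬ I.le s s' := by
    by_contra hh
    exact h1 ⟨s, hs, hsv, fun s' a b => by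
      by_contra hc
      exact hh ⟨s', a, b, hc⟩⟩
  have h2' : ∃ u', I.Mx u' ∧ I.le v u' ∧ ¬ I.le u' u := by
    by_contra hh
    exact h2 ⟨u, hu, hvu, fun u' a b => by
      by_contra hc
      exact hh ⟨u', a, b, hc⟩⟩
  obtain ⟨s', hs', hs'v, hss'⟩ := h1'
  obtain ⟨u', hu', hvu', huu'⟩ := h2'
  have hus : ¬ I.le u s := fun h => huu' (hu _ (I.trans h (I.trans hsv hvu')))
  obtain ⟨Q, hsQ, huQ, -, hQ⟩ := hI s u hs hu (I.trans hsv hvu) hus
  have e1 : u' ∈ Q := by
    rcases hQ s u' hs hu' (I.trans hsv hvu') with h | h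
    · exact h.1 hsQ
    · exact absurd h.2 huu'
  have e2 : s' ∈ Q := by
    rcases hQ s' u' hs' hu' (I.trans hs'v hvu') with h | h
    · exact h.2 e1
    · exact absurd h.2 huu'
  rcases hQ s' u hs' hu (I.trans hs'v hvu) with h | h
  · exact huQ (h.1 e2)
  · exact hss' h.1

/-- Base case: a greatest element (Edmonds' theorem). -/
theorem Good.col_of_top [Finite V] {N : ℕ} {I : Inst V} (hI : Good N I) (hN : 0 < N) (p : V)
    (hp : ∀ x, I.le x p) : Col N I := by
  have hF : ∀ X ∈ {X | I.Cut X}, ∀ Y ∈ {X | I.Cut X}, (X ∩ Y).Nonempty →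
      X ∩ Y ∈ {X | I.Cut X} ∧ X ∪ Y ∈ {X | I.Cut X} := by
    have hp' : ∀ X, I.Cut X → p ∉ X := by
      intro X hX hpX
      obtain ⟨y, hy⟩ := hX.2.2
      exact hy (hX.1 _ _ (hp y) hpX)
    intro X hX Y hY hXY
    refine ⟨⟨fun a b hab hb => ⟨hX.1 a b hab hb.1, hY.1 a b hab hb.2⟩, hXY,
      ⟨p, fun h => hp' X hX h.1⟩⟩, ⟨?_, hX.2.1.mono Set.subset_union_left, ⟨p, ?_⟩⟩⟩
    · rintro a b hab (hb | hb)
      · exact Or.inl (hX.1 a b hab hb)
      · exact Or.inr (hY.1 a b hab hb)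
    · rintro (h | h)
      · exact hp' X hX h
      · exact hp' Y hY h
  obtain ⟨c, hc⟩ := edmonds I.t I.h {X | I.Cut X} hF N hN hI.cut
  exact ⟨c, fun i X hX => hc i X hX⟩

/-! ### The termination measure -/

noncomputable def mu1 (I : Inst V) : ℕ := {p : V × V | ¬ (I.le p.1 p.2 ∧ I.le p.2 p.1)}.ncard

noncomputable def mu2 (I : Inst V) : ℕ := {p : V × V | I.le p.1 p.2}.ncard

def Mid (I : Inst V) (v : V) : Prop := ¬ I.Mn v ∧ ¬ I.Mx v

noncomputable def mu3 (I : Inst V) : ℕ :=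
  {a | I.t a ≠ I.h a}.ncard + ({a | I.t a ≠ I.h a ∧ I.Mid (I.t a)}.ncard
    + {a | I.t a ≠ I.h a ∧ I.Mid (I.h a)}.ncard)

/-- Lexicographic comparison of the measures. -/
def Lt (J I : Inst V) : Prop :=
  J.mu1 < I.mu1 ∨ (J.mu1 = I.mu1 ∧ (J.mu2 < I.mu2 ∨ (J.mu2 = I.mu2 ∧ J.mu3 < I.mu3)))

theorem ncard_swap (S : Set (V × V)) : {p : V × V | p.swap ∈ S}.ncard = S.ncard := by
  have : {p : V × V | p.swap ∈ S} = Prod.swap '' S := by
    ext p
    constructor
    · intro hp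
      exact ⟨p.swap, hp, Prod.swap_swap p⟩
    · rintro ⟨q, hq, rfl⟩
      simpa using hq
  rw [this, Set.ncard_image_of_injective _ Prod.swap_injective]

theorem dual_mu1 (I : Inst V) : I.dual.mu1 = I.mu1 := by
  unfold mu1
  congr 1
  ext p
  exact not_congr and_comm

theorem dual_mu2 (I : Inst V) : I.dual.mu2 = I.mu2 :=
  ncard_swap {p : V × V | I.le p.1 p.2}

theorem dual_Mid (I : Inst V) (v : V) : I.dual.Mid v ↔ I.Mid v := and_comm

theorem dual_mu3 (I : Inst V) : I.dual.mu3 = I.mu3 := by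
  have e1 : {a | I.dual.t a ≠ I.dual.h a} = {a | I.t a ≠ I.h a} := by
    ext a
    exact ne_comm
  have e2 : {a | I.dual.t a ≠ I.dual.h a ∧ I.dual.Mid (I.dual.t a)}
      = {a | I.t a ≠ I.h a ∧ I.Mid (I.h a)} := by
    ext a
    exact and_congr ne_comm (dual_Mid I _)
  have e3 : {a | I.dual.t a ≠ I.dual.h a ∧ I.dual.Mid (I.dual.h a)}
      = {a | I.t a ≠ I.h a ∧ I.Mid (I.t a)} := by
    ext a
    exact and_congr ne_comm (dual_Mid I _)
  unfold mu3
  rw [e1, e2, e3]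
  exact congrArg _ (Nat.add_comm _ _)

/-- The induction hypothesis at `I`. -/
def IH (N : ℕ) (I : Inst V) : Prop := ∀ J : Inst V, Lt J I → Good N J → Col N J

theorem IH.dual {N : ℕ} {I : Inst V} (h : IH N I) : IH N I.dual := by
  intro J hJ
  apply h J
  unfold Lt at hJ ⊢
  rwa [dual_mu1, dual_mu2, dual_mu3] at hJ

theorem induct {N : ℕ} (step : ∀ I : Inst V, IH N I → Good N I → Col N I) (I : Inst V) :
    Good N I → Col N I := by
  have key : ∀ n1 n2 n3 : ℕ, ∀ I : Inst V, I.mu1 = n1 → I.mu2 = n2 → I.mu3 = n3 →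
      Good N I → Col N I := by
    intro n1
    induction n1 using Nat.strong_induction_on with
    | _ n1 ih1 =>
      intro n2
      induction n2 using Nat.strong_induction_on with
      | _ n2 ih2 =>
        intro n3
        induction n3 using Nat.strong_induction_on with
        | _ n3 ih3 =>
          intro I h1 h2 h3
          apply step
          intro J hJ
          rcases hJ with hJ | ⟨e1, hJ | ⟨e2, hJ⟩⟩
          · exact ih1 J.mu1 (h1 ▸ hJ) _ _ J rfl rfl rfl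
          · exact ih2 J.mu2 (h2 ▸ hJ) _ J (e1.trans h1) rfl rfl
          · exact ih3 J.mu3 (h3 ▸ hJ) J (e1.trans h1) (e2.trans h2) rfl
  exact key _ _ _ I rfl rfl rfl

end Inst

end Pool.Agent.Lib.MP_cbe08d_co
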