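import Pool.Agent.Lib.MP_cbe08d_co.Contract

/-!
Weakening an arc, and turning a middle vertex into a new leaf sink.
-/

set_option autoImplicit false

namespace Pool.Agent.Lib.MP_cbe08d_co

namespace Inst

variable {V : Type}

/-- Replace the tail function. -/
def retail (I : Inst V) (t' : I.A → V) : Inst V where
  A := I.A
  fin := I.fin
  le := I.le
  refl := I.refl
  trans := I.trans
  t := t'
  h := I.h

theorem Good.col_of_retail {N : ℕ} {I : Inst V} (hI : Good N I) (ih : IH N I) (a0 : I.A) (v0 : V)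
    (hloop : I.t a0 ≠ I.h a0)
    (hdec : v0 = I.h a0 ∨ (I.Mid (I.t a0) ∧ ¬ I.Mid v0))
    (hweak : ∀ X, I.Ideal X → I.h a0 ∈ X → v0 ∉ X → I.t a0 ∉ X)
    (hslack : ∀ X, I.Cut X → a0 ∈ I.Ent X → v0 ∈ X → N + 1 ≤ I.d X)
    (hloc : ∃ u s, I.le v0 u ∧ I.le s u ∧ I.le s (I.h a0)) : Col N I := by
  classical
  obtain ⟨t', ht0, ht⟩ : ∃ t' : I.A → V, t' a0 = v0 ∧ ∀ a, a ≠ a0 → t' a = I.t a :=
    ⟨fun a => if a = a0 then v0 else I.t a, if_pos rfl, fun a ha => if_neg ha⟩
  have hgood : Good N (I.retail t') := by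
    refine ⟨fun X hX => ?_, fun (a : I.A) => ?_, hI.tree⟩
    · have h1 := hI.cut X hX
      change N ≤ (ent t' I.h X).ncard
      by_cases hc : a0 ∈ I.Ent X ∧ v0 ∈ X
      · have h2 := hslack X hX hc.1 hc.2
        have h3 : I.Ent X ⊆ insert a0 (ent t' I.h X) := by
          intro a ha
          by_cases e : a = a0
          · exact Or.inl e
          · exact Or.inr ⟨ha.1, by rw [ht a e]; exact ha.2⟩
        have h4 := Set.ncard_le_ncard h3 (Set.toFinite _)
        have h5 := Set.ncard_insert_le a0 (ent t' I.h X)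
        unfold d at h2
        omega
      · refine le_trans h1 (Set.ncard_le_ncard ?_ (Set.toFinite _))
        intro a ha
        by_cases e : a = a0
        · subst e
          exact ⟨ha.1, by rw [ht0]; exact fun h => hc ⟨ha, h⟩⟩
        · exact ⟨ha.1, by rw [ht a e]; exact ha.2⟩
    · change ∃ u s, I.le (t' a) u ∧ I.le s u ∧ I.le s (I.h a)
      by_cases e : a = a0
      · subst e
        rw [ht0]
        exact hloc
      · rw [ht a e]
        exact hI.loc a
  have hlt : Lt (I.retail t') I := by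
    refine Or.inr ⟨rfl, Or.inr ⟨rfl, ?_⟩⟩
    have s1 : {a | t' a ≠ I.h a} ⊆ {a | I.t a ≠ I.h a} := by
      intro a ha
      by_cases e : a = a0
      · exact e ▸ hloop
      · rw [Set.mem_ofPred_eq, ← ht a e]
        exact ha
    have s2 : {a | t' a ≠ I.h a ∧ I.Mid (t' a)} ⊆ {a | I.t a ≠ I.h a ∧ I.Mid (I.t a)} := by
      intro a ha
      refine ⟨s1 ha.1, ?_⟩
      by_cases e : a = a0
      · subst e
        rcases hdec with h | h
        · exact absurd (ht0.trans h) ha.1
        · exact h.1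
      · rw [← ht a e]
        exact ha.2
    have s3 : {a | t' a ≠ I.h a ∧ I.Mid (I.h a)} ⊆ {a | I.t a ≠ I.h a ∧ I.Mid (I.h a)} :=
      fun a ha => ⟨s1 ha.1, ha.2⟩
    have l1 := Set.ncard_le_ncard s1 (Set.toFinite _)
    have l2 := Set.ncard_le_ncard s2 (Set.toFinite _)
    have l3 := Set.ncard_le_ncard s3 (Set.toFinite _)
    change {a | t' a ≠ I.h a}.ncard + ({a | t' a ≠ I.h a ∧ I.Mid (t' a)}.ncard
      + {a | t' a ≠ I.h a ∧ I.Mid (I.h a)}.ncard) < I.mu3
    unfold mu3
    rcases hdec with h | h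
    · have : {a | t' a ≠ I.h a}.ncard < {a | I.t a ≠ I.h a}.ncard :=
        Set.ncard_lt_ncard ⟨s1, fun hs => hs hloop (ht0.trans h)⟩ (Set.toFinite _)
      omega
    · have : {a | t' a ≠ I.h a ∧ I.Mid (t' a)}.ncard
          < {a | I.t a ≠ I.h a ∧ I.Mid (I.t a)}.ncard := by
        refine Set.ncard_lt_ncard ⟨s2, fun hs => h.2 ?_⟩ (Set.toFinite _)
        have := (hs ⟨hloop, h.1⟩).2
        rw [ht0] at this
        exact this
      omega
  obtain ⟨c, hc⟩ := ih _ hlt hgood
  refine ⟨c, fun i X hX => ?_⟩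
  obtain ⟨a, ha, hca⟩ : ∃ a : I.A, a ∈ ent t' I.h X ∧ c a = i := hc i X hX
  refine ⟨a, ⟨ha.1, ?_⟩, hca⟩
  by_cases e : a = a0
  · subst e
    exact hweak X hX.1 ha.1 (by rw [← ht0]; exact ha.2)
  · rw [← ht a e]
    exact ha.2

open Classical in
/-- Remove all order relations from the class of `v` upwards, replacing each by `N` arcs. -/
noncomputable def toSink (I : Inst V) [Finite V] (N : ℕ) (v : V) : Inst V where
  A := I.A ⊕ (V × Fin N)
  fin := inferInstance
  le := fun a b => I.le a b ∧ (I.le v a → I.le a v → I.le b v)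
  refl := fun a => ⟨I.refl a, fun _ h => h⟩
  trans := fun h1 h2 => ⟨I.trans h1.1 h2.1, fun k1 k2 => h2.2 (I.trans k1 h1.1) (h1.2 k1 k2)⟩
  t := Sum.elim I.t fun _ => v
  h := Sum.elim I.h fun p => if I.le v p.1 then p.1 else v

theorem Good.col_of_toSink [Finite V] {N : ℕ} {I : Inst V} (hI : Good N I) (ih : IH N I)
    (v s : V) (hv : I.Mid v) (hs : I.Mn s) (hsv : I.le s v)
    (huniq : ∀ s', I.Mn s' → I.le s' v → I.le s s')
    (harc : ∀ a, I.le v (I.t a) → I.le (I.t a) v → I.le s (I.h a)) : Col N I := by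
  classical
  set J := I.toSink N v with hJ
  have hle : ∀ a b, J.le a b ↔ I.le a b ∧ (I.le v a → I.le a v → I.le b v) := fun _ _ => Iff.rfl
  have hmnv : ∀ x, I.Mn x → ¬ I.le v x := fun x hx h =>
    hv.1 fun y hy => I.trans h (hx y (I.trans hy h))
  have hof : ∀ x y, I.Mn x → I.le x y → J.le x y := fun x y hx h =>
    ⟨h, fun k => absurd k (hmnv x hx)⟩
  have hhead : ∀ y j, I.le v y → J.h (Sum.inr (y, j)) = y := fun y j h => if_pos h
  have hhead' : ∀ p, I.le v (J.h (Sum.inr p)) := by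
    intro p
    change I.le v (if I.le v p.1 then p.1 else v)
    split_ifs with h
    · exact h
    · exact I.refl v
  have hideal : ∀ X, I.Ideal X → J.Ideal X := fun X hX a b hab hb => hX a b hab.1 hb
  have hgood : Good N J := by
    refine ⟨fun X hX => ?_, ?_, ?_⟩
    · by_cases hc : I.Ideal X
      · refine le_trans (hI.cut X ⟨hc, hX.2⟩) ?_
        exact Set.ncard_le_ncard_of_injOn (fun a => (Sum.inl a : J.A)) (fun a ha => ha)
          (fun a _ b _ h => Sum.inl_injective h) (Set.toFinite _)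
      · have : ∃ a b, I.le a b ∧ b ∈ X ∧ a ∉ X := by
          by_contra hh
          exact hc fun a b hab hb => by
            by_contra ha
            exact hh ⟨a, b, hab, hb, ha⟩
        obtain ⟨a, b, hab, hb, ha⟩ := this
        have hav : I.le v a ∧ I.le a v := by
          by_contra hh
          exact ha (hX.1 a b ⟨hab, fun k1 k2 => absurd ⟨k1, k2⟩ hh⟩ hb)
        have hvX : v ∉ X := fun h => ha (hX.1 a v ⟨hav.2, fun _ _ => I.refl v⟩ h)
        have h1 : (Set.univ : Set (Fin N)).ncard ≤ (J.Ent X).ncard := by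
          refine Set.ncard_le_ncard_of_injOn (fun j => (Sum.inr (b, j) : J.A)) ?_ ?_
            (Set.toFinite _)
          · intro j _
            refine ⟨?_, hvX⟩
            rw [hhead b j (I.trans hav.1 hab)]
            exact hb
          · intro j _ j' _ h
            exact (Prod.mk.inj (Sum.inr_injective h)).2
        rwa [Set.ncard_univ, Nat.card_eq_fintype_card, Fintype.card_fin] at h1
    · rintro (a | p)
      · by_cases hc : I.le v (I.t a) ∧ I.le (I.t a) v
        · exact ⟨I.t a, s, J.refl _, hof _ _ hs (I.trans hsv hc.1), hof _ _ hs (harc a hc.1 hc.2)⟩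
        · obtain ⟨u, s', -, hs', h1, h2, h3⟩ := hI.loc.hub a
          exact ⟨u, s', ⟨h1, fun k1 k2 => absurd ⟨k1, k2⟩ hc⟩, hof _ _ hs' h2, hof _ _ hs' h3⟩
      · exact ⟨v, s, J.refl _, hof _ _ hs hsv, hof _ _ hs (I.trans hsv (hhead' p))⟩
    · have hmn : ∀ x, J.Mn x → I.Mn x := by
        intro x hx y hy
        by_cases hc : J.le y x
        · exact (hx y hc).1
        · have hyv : I.le v y ∧ I.le y v := by
            by_contra hh
            exact hc ⟨hy, fun k1 k2 => absurd ⟨k1, k2⟩ hh⟩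
          exact I.trans (hx s (hof _ _ hs (I.trans hsv (I.trans hyv.1 hy)))).1
            (I.trans hsv hyv.1)
      have hmx : ∀ x, J.Mx x → ¬ (I.le v x ∧ I.le x v) → I.Mx x := fun x hx hxv y hy =>
        (hx y ⟨hy, fun k1 k2 => absurd ⟨k1, k2⟩ hxv⟩).1
      intro s1 u1 hs1 hu1 h1 h2
      have hs1' := hmn s1 hs1
      by_cases hc : I.le v u1 ∧ I.le u1 v
      · refine ⟨{x | ¬ (I.le v x ∧ I.le x v)}, fun h => hmnv s1 hs1' h.1, fun h => h hc, ?_, ?_⟩
        · intro a b hab hba ha hb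
          exact ha ⟨I.trans hb.1 hba.1, I.trans hab.1 hb.2⟩
        · intro s' u' k1 k2 k3
          have k1' := hmn s' k1
          by_cases hu' : I.le v u' ∧ I.le u' v
          · right
            refine ⟨hof _ _ hs1' ?_, I.trans hu'.2 hc.1, fun _ _ => hc.2⟩
            exact I.trans (hs1' s (huniq s1 hs1' (I.trans h1.1 hc.2)))
              (huniq s' k1' (I.trans k3.1 hu'.2))
          · exact Or.inl ⟨fun _ => hu', fun _ h => hmnv s' k1' h.1⟩
      · obtain ⟨Q, hQ1, hQ2, hQ3, hQ4⟩ := hI.tree s1 u1 hs1' (hmx u1 hu1 hc) h1.1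
          fun h => h2 ⟨h, fun k1 k2 => absurd ⟨k1, k2⟩ hc⟩
        refine ⟨{x | ((I.le v x ∧ I.le x v) ∧ s ∈ Q) ∨ (¬ (I.le v x ∧ I.le x v) ∧ x ∈ Q)},
          Or.inr ⟨fun h => hmnv s1 hs1' h.1, hQ1⟩, ?_, ?_, ?_⟩
        · rintro (h | h)
          · exact hc h.1
          · exact hQ2 h.2
        · rintro a b hab hba (h | h)
          · exact Or.inl ⟨⟨I.trans h.1.1 hab.1, I.trans hba.1 h.1.2⟩, h.2⟩
          · exact Or.inr ⟨fun k => h.1 ⟨I.trans k.1 hba.1, I.trans hab.1 k.2⟩,
              hQ3 a b hab.1 hba.1 h.2⟩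
        · intro s' u' k1 k2 k3
          have k1' := hmn s' k1
          have hs'v : ¬ (I.le v s' ∧ I.le s' v) := fun h => hmnv s' k1' h.1
          by_cases hu' : I.le v u' ∧ I.le u' v
          · left
            have e1 := huniq s' k1' (I.trans k3.1 hu'.2)
            have e2 := k1' s e1
            constructor
            · rintro (h | h)
              · exact absurd h.1 hs'v
              · exact Or.inl ⟨hu', hQ3 _ _ e2 e1 h.2⟩
            · rintro (h | h)
              · exact Or.inr ⟨hs'v, hQ3 _ _ e1 e2 h.2⟩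
              · exact absurd hu' h.1
          · rcases hQ4 s' u' k1' (hmx u' k2 hu') k3.1 with h | h
            · left
              constructor
              · rintro (k | k)
                · exact absurd k.1 hs'v
                · exact Or.inr ⟨hu', h.1 k.2⟩
              · rintro (k | k)
                · exact absurd k.1 hu'
                · exact Or.inr ⟨hs'v, h.2 k.2⟩
            · exact Or.inr ⟨hof _ _ hs1' h.1, h.2, fun k1 k2 => absurd ⟨k1, k2⟩ hu'⟩
  have hlt : Lt J I := by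
    refine Or.inr ⟨?_, Or.inl ?_⟩
    · unfold mu1
      congr 1
      ext p
      refine not_congr ⟨fun h => ⟨h.1.1, h.2.1⟩, fun h => ⟨⟨h.1, fun _ k => I.trans h.2 k⟩,
        ⟨h.2, fun _ k => I.trans h.1 k⟩⟩⟩
    · refine Set.ncard_lt_ncard ⟨fun p hp => hp.1, fun hsub => hv.2 fun y hy => ?_⟩
        (Set.toFinite _)
      have : (v, y) ∈ {p : V × V | I.le p.1 p.2} := hy
      exact (hsub this).2 (I.refl v) (I.refl v)
  obtain ⟨c, hc⟩ := ih J hlt hgood
  refine ⟨fun a => c (Sum.inl a), fun i X hX => ?_⟩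
  obtain ⟨a, ha, hca⟩ := hc i X ⟨hideal X hX.1, hX.2⟩
  rcases a with a | p
  · exact ⟨a, ha, hca⟩
  · exact absurd (hX.1 _ _ (hhead' p) ha.1) ha.2

/-- No nontrivial tight cut. -/
def Prime (N : ℕ) (I : Inst V) : Prop :=
  ∀ X, I.Cut X → (∃ a ∈ X, ∃ b ∈ X, ¬ I.le a b) → (∃ a ∈ Xᶜ, ∃ b ∈ Xᶜ, ¬ I.le a b) →
    N + 1 ≤ I.d X

theorem Prime.dual {N : ℕ} {I : Inst V} (hI : Prime N I) : Prime N I.dual := by
  rintro X hX ⟨a, ha, b, hb, hab⟩ ⟨a', ha', b', hb', hab'⟩
  rw [dual_d]
  refine hI _ ((dual_Cut I X).1 hX) ⟨b', hb', a', ha', hab'⟩ ?_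
  rw [compl_compl]
  exact ⟨b, hb, a, ha, hab⟩

/-- A middle vertex above a unique source class can be eliminated. -/
theorem Good.col_of_mid [Finite V] {N : ℕ} {I : Inst V} (hI : Good N I) (ih : IH N I)
    (hp : Prime N I) (v s : V) (hv : I.Mid v) (hs : I.Mn s) (hsv : I.le s v)
    (huniq : ∀ s', I.Mn s' → I.le s' v → I.le s s') : Col N I := by
  by_cases harc : ∀ a, I.le v (I.t a) → I.le (I.t a) v → I.le s (I.h a)
  · exact hI.col_of_toSink ih v s hv hs hsv huniq harc
  · have : ∃ a, I.le v (I.t a) ∧ I.le (I.t a) v ∧ ¬ I.le s (I.h a) := by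
      by_contra hh
      exact harc fun a h1 h2 => by
        by_contra h3
        exact hh ⟨a, h1, h2, h3⟩
    obtain ⟨a, h1, h2, h3⟩ := this
    have hst := I.trans hsv h1
    refine hI.col_of_retail ih a s (fun e => h3 (e ▸ hst)) (Or.inr ⟨⟨fun h => hv.1 ?_,
      fun h => hv.2 ?_⟩, fun h => h.1 hs⟩) (fun X hX _ k1 k2 => k1 (hX _ _ hst k2)) ?_ ?_
    · exact fun y hy => I.trans h1 (h y (I.trans hy h1))
    · exact fun y hy => I.trans (h y (I.trans h2 hy)) h2
    · intro X hX ha hsX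
      have : ∃ y, I.le v y ∧ ¬ I.le y v := by
        by_contra hh
        exact hv.2 fun y hy => by
          by_contra k
          exact hh ⟨y, hy, k⟩
      obtain ⟨y, hy1, hy2⟩ := this
      exact hp X hX ⟨s, hsX, I.h a, ha.1, h3⟩
        ⟨y, fun k => ha.2 (hX.1 _ _ (I.trans h2 hy1) k), I.t a, ha.2, fun k => hy2 (I.trans k h2)⟩
    · obtain ⟨u, s', k1, k2, k3⟩ := hI.loc a
      exact ⟨u, s', I.trans hst k1, k2, k3⟩

/-- Every non-loop arc enters a tight cut. -/
def Crit (N : ℕ) (I : Inst V) : Prop :=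
  ∀ a, I.t a ≠ I.h a → ∃ X, I.Cut X ∧ a ∈ I.Ent X ∧ I.d X ≤ N

theorem Crit.dual {N : ℕ} {I : Inst V} (hI : Crit N I) : Crit N I.dual := by
  intro a ha
  obtain ⟨X, h1, h2, h3⟩ := hI a (Ne.symm ha)
  refine ⟨Xᶜ, (dual_Cut I Xᶜ).2 (by rwa [compl_compl]), ?_, ?_⟩
  · rwa [dual_Ent, compl_compl]
  · rwa [dual_d, compl_compl]

theorem Good.col_of_not_crit {N : ℕ} {I : Inst V} (hI : Good N I) (ih : IH N I)
    (hc : ¬ Crit N I) : Col N I := by
  have : ∃ a, I.t a ≠ I.h a ∧ ∀ X, I.Cut X → a ∈ I.Ent X → N + 1 ≤ I.d X := by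
    by_contra hh
    refine hc fun a ha => ?_
    by_contra k
    refine hh ⟨a, ha, fun X h1 h2 => ?_⟩
    by_contra k2
    exact k ⟨X, h1, h2, by omega⟩
  obtain ⟨a, ha, h⟩ := this
  exact hI.col_of_retail ih a (I.h a) ha (Or.inl rfl) (fun X _ k1 k2 => absurd k1 k2)
    (fun X h1 h2 _ => h X h1 h2) ⟨I.h a, I.h a, I.refl _, I.refl _, I.refl _⟩

end Inst

end Pool.Agent.Lib.MP_cbe08d_co
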