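import Pool.Agent.Lib.MP_cbe08d_co.Edmonds

/-!
Thin connections, part one: rerouting a connection inside a worst closed set.
-/

set_option autoImplicit false

namespace Pool.Agent.Lib.MP_cbe08d_co.Thin

variable {V A : Type}

/-- Sets closed backwards along a relation. -/
def Cl (ρ : V → V → Prop) (S : Set V) : Prop := ∀ x y, ρ x y → y ∈ S → x ∈ S

/-- The number of arcs of `R` leaving `S`. -/
noncomputable def cnt (tl hd : A → V) (R : Set A) (S : Set V) : ℕ := (R ∩ ent hd tl S).ncard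

/-- `P` leaves every closed set containing `s` and missing `t`. -/
def Cov (ρ : V → V → Prop) (tl hd : A → V) (s t : V) (P : Set A) : Prop :=
  ∀ S, Cl ρ S → s ∈ S → t ∉ S → (P ∩ ent hd tl S).Nonempty

theorem Cl.inter {ρ : V → V → Prop} {X Y : Set V} (hX : Cl ρ X) (hY : Cl ρ Y) : Cl ρ (X ∩ Y) :=
  fun x y h hy => ⟨hX x y h hy.1, hY x y h hy.2⟩

theorem Cl.union {ρ : V → V → Prop} {X Y : Set V} (hX : Cl ρ X) (hY : Cl ρ Y) : Cl ρ (X ∪ Y) :=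
  fun x y h hy => hy.elim (fun h1 => Or.inl (hX x y h h1)) (fun h1 => Or.inr (hY x y h h1))

theorem Cl.sUnion {ρ : V → V → Prop} {F : Set (Set V)} (hF : ∀ X ∈ F, Cl ρ X) : Cl ρ (⋃₀ F) := by
  rintro x y h ⟨X, hX, hy⟩
  exact ⟨X, hX, hF X hX x y h hy⟩

theorem mem_ent {tl hd : A → V} {S : Set V} {a : A} : a ∈ ent hd tl S ↔ tl a ∈ S ∧ hd a ∉ S :=
  Iff.rfl

theorem cnt_le [Finite A] {tl hd : A → V} {R R' : Set A} {S S' : Set V}
    (h : ∀ a ∈ R, tl a ∈ S → hd a ∉ S → a ∈ R' ∧ tl a ∈ S' ∧ hd a ∉ S') :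
    cnt tl hd R S ≤ cnt tl hd R' S' :=
  Set.ncard_le_ncard (fun a ha => h a ha.1 ha.2.1 ha.2.2) (Set.toFinite _)

theorem cnt_mono [Finite A] {tl hd : A → V} {R R' : Set A} (h : R ⊆ R') (S : Set V) :
    cnt tl hd R S ≤ cnt tl hd R' S :=
  cnt_le fun _ ha h1 h2 => ⟨h ha, h1, h2⟩

theorem cnt_le_succ [Finite A] {tl hd : A → V} {R R' : Set A} {S : Set V} (e : A)
    (h : ∀ a ∈ R, tl a ∈ S → hd a ∉ S → a ≠ e → a ∈ R') :
    cnt tl hd R S ≤ cnt tl hd R' S + 1 := by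
  refine le_trans (Set.ncard_le_ncard (t := insert e (R' ∩ ent hd tl S)) ?_ (Set.toFinite _))
    (Set.ncard_insert_le _ _)
  intro a ha
  by_cases hae : a = e
  · exact Or.inl hae
  · exact Or.inr ⟨h a ha.1 ha.2.1 ha.2.2 hae, ha.2⟩

theorem cnt_submod [Finite A] (tl hd : A → V) (R : Set A) (X Y : Set V) :
    cnt tl hd R (X ∩ Y) + cnt tl hd R (X ∪ Y) ≤ cnt tl hd R X + cnt tl hd R Y :=
  ent_submod hd tl R X Y

/-- Growing a cover of the closed subsets of `T` inside the tight set `Y`. -/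
theorem grow [Finite V] [Finite A] (ρ : V → V → Prop) (tl hd : A → V) (Y : Set V) (g : ℕ)
    (hY : Cl ρ Y) (m : ℕ) : ∀ (T : Set V) (R : Set A), T.ncard = m → Cl ρ T → T ⊆ Y →
    cnt tl hd R Y ≤ g →
    (∀ X, Cl ρ X → X.Nonempty → X ⊆ Y → g ≤ cnt tl hd R X) →
    (∀ X, Cl ρ X → X.Nonempty → X ⊆ T → g + 1 ≤ cnt tl hd R X) →
    ∃ Q : Set A, Q ⊆ R ∧ (∀ a ∈ Q, tl a ∈ Y ∧ hd a ∈ Y) ∧
      (∀ X, Cl ρ X → X.Nonempty → X ⊆ T → (Q ∩ ent hd tl X).Nonempty) ∧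
      ∀ X, Cl ρ X → X.Nonempty → X ⊆ Y → g ≤ cnt tl hd (R \ Q) X := by
  induction m using Nat.strong_induction_on with
  | _ m ih =>
  intro T R hm hT hTY hYc h1 h2
  rcases T.eq_empty_or_nonempty with hTe | hTn
  · refine ⟨∅, Set.empty_subset _, fun a ha => ha.elim, ?_, ?_⟩
    · intro X _ hX hXT
      rw [hTe] at hXT
      exact absurd (hX.mono hXT) Set.not_nonempty_empty
    · intro X hX hXn hXY
      rw [Set.sdiff_empty]
      exact h1 X hX hXn hXY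
  let Dg : Set (Set V) := {X | Cl ρ X ∧ X ⊆ Y ∧ cnt tl hd R X ≤ g ∧ (X ∩ T).Nonempty}
  have hDg : Dg.Nonempty := ⟨Y, hY, subset_rfl, hYc, hTn.mono fun x hx => ⟨hTY hx, hx⟩⟩
  obtain ⟨X0, ⟨hX0, hX0Y, hX0c, hX0T⟩, hmin⟩ :=
    Set.exists_min_image Dg Set.ncard (Set.toFinite _) hDg
  have ha : ∃ a ∈ R, tl a ∈ X0 ∧ tl a ∈ T ∧ hd a ∈ X0 ∧ hd a ∉ T := by
    by_contra hcon
    have h3 := h2 (X0 ∩ T) (hX0.inter hT) hX0T Set.inter_subset_right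
    have h4 : cnt tl hd R (X0 ∩ T) ≤ cnt tl hd R X0 := by
      refine cnt_le fun a haR ht hh => ⟨haR, ht.1, fun hh' => hcon ⟨a, haR, ht.1, ht.2, hh', ?_⟩⟩
      exact fun hT' => hh ⟨hh', hT'⟩
    omega
  obtain ⟨a, haR, hta, htT, hha, hhT⟩ := ha
  let T' : Set V := ⋃₀ {X | Cl ρ X ∧ X ⊆ T ∧ tl a ∉ X}
  have hT'c : Cl ρ T' := Cl.sUnion fun X hX => hX.1
  have hT'T : T' ⊆ T := by
    rintro x ⟨X, hX, hx⟩
    exact hX.2.1 hx
  have htT' : tl a ∉ T' := by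
    rintro ⟨X, hX, hx⟩
    exact hX.2.2 hx
  have hlt : T'.ncard < m := by
    rw [← hm]
    exact Set.ncard_lt_ncard ⟨hT'T, fun h => htT' (h htT)⟩ (Set.toFinite _)
  have h1' : ∀ X, Cl ρ X → X.Nonempty → X ⊆ Y → g ≤ cnt tl hd (R \ {a}) X := by
    intro X hX hXn hXY
    by_cases hax : tl a ∈ X ∧ hd a ∉ X
    · have h5 : g + 1 ≤ cnt tl hd R X := by
        by_contra hcon
        have s1 := cnt_submod tl hd R X X0
        have s2 := h1 (X ∪ X0) (hX.union hX0) (hXn.mono Set.subset_union_left)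
          (Set.union_subset hXY hX0Y)
        have s3 := hmin (X ∩ X0) ⟨hX.inter hX0, Set.inter_subset_right.trans hX0Y, by omega,
          ⟨tl a, ⟨hax.1, hta⟩, htT⟩⟩
        have s4 : (X ∩ X0).ncard < X0.ncard :=
          Set.ncard_lt_ncard ⟨Set.inter_subset_right, fun h => hax.2 (h hha).1⟩ (Set.toFinite _)
        omega
      have h6 : cnt tl hd R X ≤ cnt tl hd (R \ {a}) X + 1 :=
        cnt_le_succ a fun b hb _ _ hba => ⟨hb, hba⟩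
      omega
    · refine (h1 X hX hXn hXY).trans (cnt_le fun b hb h7 h8 => ⟨⟨hb, ?_⟩, h7, h8⟩)
      rintro rfl
      exact hax ⟨h7, h8⟩
  have h2' : ∀ X, Cl ρ X → X.Nonempty → X ⊆ T' → g + 1 ≤ cnt tl hd (R \ {a}) X := by
    intro X hX hXn hXT
    refine (h2 X hX hXn (hXT.trans hT'T)).trans (cnt_le fun b hb h7 h8 => ⟨⟨hb, ?_⟩, h7, h8⟩)
    rintro rfl
    exact htT' (hXT h7)
  obtain ⟨Q, hQR, hQY, hQc, hQg⟩ := ih _ hlt T' (R \ {a}) rfl hT'c (hT'T.trans hTY)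
    ((cnt_mono Set.sdiff_subset Y).trans hYc) h1' h2'
  refine ⟨insert a Q, ?_, ?_, ?_, ?_⟩
  · exact Set.insert_subset haR (hQR.trans Set.sdiff_subset)
  · rintro b (rfl | hb)
    · exact ⟨hX0Y hta, hX0Y hha⟩
    · exact hQY b hb
  · intro X hX hXn hXT
    by_cases htX : tl a ∈ X
    · exact ⟨a, Or.inl rfl, htX, fun h => hhT (hXT h)⟩
    · obtain ⟨b, hb, hb'⟩ := hQc X hX hXn fun x hx => ⟨X, ⟨hX, hXT, htX⟩, hx⟩
      exact ⟨b, Or.inr hb, hb'⟩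
  · intro X hX hXn hXY
    refine (hQg X hX hXn hXY).trans (cnt_mono ?_ X)
    rintro b ⟨⟨hb, hba⟩, hbQ⟩
    exact ⟨hb, fun h => h.elim hba hbQ⟩

/-- The largest closed set missing `t` that no arc of `P` other than `e` leaves. -/
def lost (ρ : V → V → Prop) (tl hd : A → V) (t : V) (P : Set A) (e : A) : Set V :=
  ⋃₀ {S | Cl ρ S ∧ t ∉ S ∧ ∀ a ∈ P, a ≠ e → tl a ∈ S → hd a ∈ S}

theorem lost_cl (ρ : V → V → Prop) (tl hd : A → V) (t : V) (P : Set A) (e : A) :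
    Cl ρ (lost ρ tl hd t P e) := Cl.sUnion fun _ hX => hX.1

theorem lost_t (ρ : V → V → Prop) (tl hd : A → V) (t : V) (P : Set A) (e : A) :
    t ∉ lost ρ tl hd t P e := by
  rintro ⟨X, hX, hx⟩
  exact hX.2.1 hx

theorem lost_arc {ρ : V → V → Prop} {tl hd : A → V} {t : V} {P : Set A} {e a : A} (ha : a ∈ P)
    (hae : a ≠ e) (h : tl a ∈ lost ρ tl hd t P e) : hd a ∈ lost ρ tl hd t P e := by
  obtain ⟨X, hX, hx⟩ := h
  exact ⟨X, hX, hX.2.2 a ha hae hx⟩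

theorem sub_lost {ρ : V → V → Prop} {tl hd : A → V} {t : V} {P : Set A} {e : A} {S : Set V}
    (hS : Cl ρ S) (ht : t ∉ S)
    (h : ∀ a ∈ P, a ≠ e → tl a ∈ S → tl a ∉ lost ρ tl hd t P e →
      hd a ∈ S ∨ hd a ∈ lost ρ tl hd t P e) : S ⊆ lost ρ tl hd t P e := by
  intro x hx
  refine ⟨S ∪ lost ρ tl hd t P e, ⟨hS.union (lost_cl _ _ _ _ _ _),
    fun h' => h'.elim ht (lost_t _ _ _ _ _ _), fun a ha hae hta => ?_⟩, Or.inl hx⟩
  by_cases hl : tl a ∈ lost ρ tl hd t P e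
  · exact Or.inr (lost_arc ha hae hl)
  · exact h a ha hae (hta.resolve_right hl) hl

/-- Rerouting a minimal connection inside a worst closed set. -/
theorem astep0 [Finite V] [Finite A] (ρ : V → V → Prop) (tl hd : A → V) (J : Set A) (n : ℕ)
    (s t : V) (hJ : ∀ X, Cl ρ X → X.Nonempty → X ≠ Set.univ → n + 1 ≤ cnt tl hd J X)
    (P : Set A) (hPJ : P ⊆ J) (hP : Cov ρ tl hd s t P)
    (hPm : ∀ e ∈ P, ¬ Cov ρ tl hd s t (P \ {e}))
    (Y : Set V) (hY : Cl ρ Y) (hYn : Y.Nonempty) (hYu : Y ≠ Set.univ)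
    (hg : cnt tl hd (J \ P) Y < n)
    (hmin : ∀ X, Cl ρ X → X.Nonempty → X ⊆ Y → cnt tl hd (J \ P) Y ≤ cnt tl hd (J \ P) X) :
    ∃ P' : Set A, P' ⊆ J ∧ Cov ρ tl hd s t P' ∧ cnt tl hd (J \ P) Y < cnt tl hd (J \ P') Y ∧
      ∀ D, Cl ρ D → cnt tl hd (J \ P) D ≤ cnt tl hd (J \ P') D ∨
        cnt tl hd (J \ P) (D ∪ Y) ≤ cnt tl hd (J \ P') D := by
  have hE : (P ∩ ent hd tl Y).Nonempty := by
    by_contra hcon
    have h1 := hJ Y hY hYn hYu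
    have h2 : cnt tl hd J Y ≤ cnt tl hd (J \ P) Y :=
      cnt_le fun a ha h3 h4 => ⟨⟨ha, fun h => hcon ⟨a, h, h3, h4⟩⟩, h3, h4⟩
    omega
  have hout : ∀ e ∈ P, tl e ∈ lost ρ tl hd t P e ∧ hd e ∉ lost ρ tl hd t P e := by
    intro e he
    have hs : s ∈ lost ρ tl hd t P e := by
      by_contra hs
      apply hPm e he
      intro S hS hsS htS
      by_contra hcon
      refine hs (sub_lost hS htS (fun a ha hae hta _ => Or.inl ?_) hsS)
      by_contra hh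
      exact hcon ⟨a, ⟨ha, hae⟩, hta, hh⟩
    obtain ⟨a, ha, hta, hha⟩ := hP _ (lost_cl ρ tl hd t P e) hs (lost_t _ _ _ _ _ _)
    by_cases hae : a = e
    · rw [← hae] at hta hha ⊢
      exact ⟨hta, hha⟩
    · exact absurd (lost_arc ha hae hta) hha
  obtain ⟨e, ⟨heP, heY, heY'⟩, hemin⟩ := Set.exists_min_image (P ∩ ent hd tl Y)
    (fun e => (lost ρ tl hd t P e).ncard) (Set.toFinite _) hE
  set L := lost ρ tl hd t P e with hL
  have hLc : Cl ρ L := lost_cl _ _ _ _ _ _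
  have hlast : ∀ a ∈ P, tl a ∈ Y → hd a ∉ Y → a ≠ e → tl a ∉ L := by
    intro a ha h1 h2 hae htl
    have hh : hd a ∈ L := lost_arc ha hae htl
    have hsub : lost ρ tl hd t P a ⊆ L := by
      refine sub_lost (lost_cl _ _ _ _ _ _) (lost_t _ _ _ _ _ _) fun b hb _ htb _ => ?_
      by_cases hba : b = a
      · exact Or.inr (hba ▸ hh)
      · exact Or.inl (lost_arc hb hba htb)
    have heq := Set.eq_of_subset_of_ncard_le hsub (hemin a ⟨ha, h1, h2⟩) (Set.toFinite _)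
    exact (hout a ha).2 (heq ▸ hh)
  let P1 : Set A := {a | a ∈ P ∧ ¬ (tl a ∈ Y ∧ tl a ∈ L)}
  let R : Set A := (J \ P1) \ {e}
  have hJR : J \ P ⊆ R := fun a ha =>
    ⟨⟨ha.1, fun h => ha.2 h.1⟩, fun h => ha.2 (by rw [Set.mem_singleton_iff.1 h]; exact heP)⟩
  have hRY : cnt tl hd R Y ≤ cnt tl hd (J \ P) Y :=
    cnt_le fun a ha h1 h2 => ⟨⟨ha.1.1, fun hP' =>
      ha.1.2 ⟨hP', fun h => hlast a hP' h1 h2 ha.2 h.2⟩⟩, h1, h2⟩
  obtain ⟨Q, hQR, hQY, hQc, hQg⟩ := grow ρ tl hd Y (cnt tl hd (J \ P) Y) hY _ (Y ∩ L) R rfl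
    (hY.inter hLc) Set.inter_subset_left hRY
    (fun X hX hXn hXY => (hmin X hX hXn hXY).trans (cnt_mono hJR X))
    (fun X hX hXn hXT => by
      have h1 := hJ X hX hXn fun h => hYu (Set.eq_univ_of_univ_subset
        (h ▸ hXT.trans Set.inter_subset_left))
      have h2 : cnt tl hd J X ≤ cnt tl hd R X + 1 :=
        cnt_le_succ e fun a ha h3 _ hae => ⟨⟨ha, fun h => h.2 (hXT h3)⟩, hae⟩
      omega)
  refine ⟨P1 ∪ Q, ?_, ?_, ?_, ?_⟩
  · exact Set.union_subset (fun a ha => hPJ ha.1) fun a ha => (hQR ha).1.1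
  · intro S hS hsS htS
    by_contra hcon
    have hSL : S ⊆ L := by
      refine sub_lost hS htS fun a ha _ hta hl => Or.inl ?_
      by_contra hh
      exact hcon ⟨a, Or.inl ⟨ha, fun h => hl h.2⟩, hta, hh⟩
    rcases (S ∩ Y).eq_empty_or_nonempty with hSY | hSY
    · obtain ⟨a, ha, hta, hha⟩ := hP S hS hsS htS
      refine hcon ⟨a, Or.inl ⟨ha, fun h => ?_⟩, hta, hha⟩
      have : tl a ∈ S ∩ Y := ⟨hta, h.1⟩
      rw [hSY] at this
      exact this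
    · obtain ⟨a, ha, hta, hha⟩ := hQc (S ∩ Y) (hS.inter hY) hSY fun x hx => ⟨hx.2, hSL hx.1⟩
      exact hcon ⟨a, Or.inr ha, hta.1, fun h => hha ⟨h, (hQY a ha).2⟩⟩
  · have h1 : insert e ((J \ P) ∩ ent hd tl Y) ⊆ (J \ (P1 ∪ Q)) ∩ ent hd tl Y := by
      rintro a (rfl | ⟨ha, hta, hha⟩)
      · exact ⟨⟨hPJ heP, fun h => h.elim (fun h => h.2 ⟨heY, (hout _ heP).1⟩)
          fun h => heY' (hQY _ h).2⟩, heY, heY'⟩
      · exact ⟨⟨ha.1, fun h => h.elim (fun h => ha.2 h.1) fun h => hha (hQY _ h).2⟩, hta, hha⟩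
    have h2 := Set.ncard_le_ncard h1 (Set.toFinite _)
    rw [Set.ncard_insert_of_notMem (fun h => h.1.2 heP) (Set.toFinite _)] at h2
    exact h2
  · intro D hD
    rcases (D ∩ Y).eq_empty_or_nonempty with hDY | hDY
    · left
      refine cnt_le fun a ha h1 h2 => ⟨⟨ha.1, fun h => h.elim (fun h => ha.2 h.1) fun h => ?_⟩,
        h1, h2⟩
      have : tl a ∈ D ∩ Y := ⟨h1, (hQY a h).1⟩
      rw [hDY] at this
      exact this
    · right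
      have s1 := cnt_submod tl hd (R \ Q) D Y
      have s2 := hQg (D ∩ Y) (hD.inter hY) hDY Set.inter_subset_right
      have s3 : cnt tl hd (R \ Q) Y ≤ cnt tl hd R Y := cnt_mono Set.sdiff_subset Y
      have s4 : cnt tl hd (J \ P) (D ∪ Y) ≤ cnt tl hd (R \ Q) (D ∪ Y) :=
        cnt_le fun a ha h1 h2 => ⟨⟨hJR ha, fun h => h2 (Or.inr (hQY a h).2)⟩, h1, h2⟩
      have s5 : cnt tl hd (R \ Q) D ≤ cnt tl hd (J \ (P1 ∪ Q)) D :=
        cnt_le fun a ha h1 h2 => ⟨⟨ha.1.1.1, fun h => h.elim ha.1.1.2 ha.2⟩, h1, h2⟩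
      omega

/-- Rerouting a connection inside a worst closed set. -/
theorem astep [Finite V] [Finite A] (ρ : V → V → Prop) (tl hd : A → V) (J : Set A) (n : ℕ)
    (s t : V) (hJ : ∀ X, Cl ρ X → X.Nonempty → X ≠ Set.univ → n + 1 ≤ cnt tl hd J X)
    (P : Set A) (hPJ : P ⊆ J) (hP : Cov ρ tl hd s t P)
    (Y : Set V) (hY : Cl ρ Y) (hYn : Y.Nonempty) (hYu : Y ≠ Set.univ)
    (hg : cnt tl hd (J \ P) Y < n)
    (hmin : ∀ X, Cl ρ X → X.Nonempty → X ⊆ Y → cnt tl hd (J \ P) Y ≤ cnt tl hd (J \ P) X) :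
    ∃ P' : Set A, P' ⊆ J ∧ Cov ρ tl hd s t P' ∧ cnt tl hd (J \ P) Y < cnt tl hd (J \ P') Y ∧
      ∀ D, Cl ρ D → cnt tl hd (J \ P) D ≤ cnt tl hd (J \ P') D ∨
        cnt tl hd (J \ P) (D ∪ Y) ≤ cnt tl hd (J \ P') D := by
  obtain ⟨P0, ⟨hP0, hc0⟩, hm0⟩ := Set.exists_min_image {P0 | P0 ⊆ P ∧ Cov ρ tl hd s t P0}
    Set.ncard (Set.toFinite _) ⟨P, subset_rfl, hP⟩
  have hmono : ∀ D, cnt tl hd (J \ P) D ≤ cnt tl hd (J \ P0) D := fun D =>
    cnt_mono (Set.sdiff_subset_sdiff_right hP0) D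
  by_cases hlt : cnt tl hd (J \ P) Y < cnt tl hd (J \ P0) Y
  · exact ⟨P0, hP0.trans hPJ, hc0, hlt, fun D _ => Or.inl (hmono D)⟩
  have heq : cnt tl hd (J \ P0) Y = cnt tl hd (J \ P) Y := le_antisymm (not_lt.1 hlt) (hmono Y)
  obtain ⟨P', h1, h2, h3, h4⟩ := astep0 ρ tl hd J n s t hJ P0 (hP0.trans hPJ) hc0
    (fun e he hc => by
      have h5 := hm0 (P0 \ {e}) ⟨Set.sdiff_subset.trans hP0, hc⟩
      have h6 : (P0 \ {e}).ncard < P0.ncard :=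
        Set.ncard_lt_ncard ⟨Set.sdiff_subset, fun h => (h he).2 rfl⟩ (Set.toFinite _)
      omega)
    Y hY hYn hYu (heq ▸ hg) fun X hX hXn hXY => heq ▸ (hmin X hX hXn hXY).trans (hmono X)
  refine ⟨P', h1, h2, heq ▸ h3, fun D hD => ?_⟩
  exact (h4 D hD).imp (hmono D).trans (hmono _).trans

end Pool.Agent.Lib.MP_cbe08d_co.Thin
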