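import Pool.Agent.Lib.MP_cbe08d_co.Thin1

/-!
Thin connections, part two: the two phases, the thin connection theorem and its iteration.
-/

set_option autoImplicit false

namespace Pool.Agent.Lib.MP_cbe08d_co.Thin

variable {V A : Type}

/-- Every nonempty proper closed set is left by at least `n` arcs of `R`. -/
def Rich (ρ : V → V → Prop) (tl hd : A → V) (R : Set A) (n : ℕ) : Prop :=
  ∀ X, Cl ρ X → X.Nonempty → X ≠ Set.univ → n ≤ cnt tl hd R X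

/-- The side avoiding `r` of every deficient closed set lies in `Z`. -/
def Inv (ρ : V → V → Prop) (tl hd : A → V) (R : Set A) (n : ℕ) (r : V) (Z : Set V) : Prop :=
  ∀ D, Cl ρ D → D.Nonempty → D ≠ Set.univ → cnt tl hd R D < n →
    (r ∉ D → D ⊆ Z) ∧ (r ∈ D → Dᶜ ⊆ Z)

/-- The potential of the first phase. -/
def pot (ρ : V → V → Prop) (tl hd : A → V) (R : Set A) (n : ℕ) (r : V) : Set (Fin n × Set V) :=
  {p | ∃ D, p.2 ⊆ D ∧ Cl ρ D ∧ D.Nonempty ∧ r ∉ D ∧ cnt tl hd R D ≤ p.1}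

theorem aphase [Finite V] [Finite A] (ρ : V → V → Prop) (tl hd : A → V) (J : Set A) (n : ℕ)
    (s t r : V) (hJ : Rich ρ tl hd J (n + 1)) (Z : Set V) (m : ℕ) :
    ∀ P : Set A, (pot ρ tl hd (J \ P) n r).ncard = m → P ⊆ J → Cov ρ tl hd s t P →
      Inv ρ tl hd (J \ P) n r Z →
      ∃ P' : Set A, P' ⊆ J ∧ Cov ρ tl hd s t P' ∧ Inv ρ tl hd (J \ P') n r Z ∧
        ∀ D, Cl ρ D → D.Nonempty → r ∉ D → n ≤ cnt tl hd (J \ P') D := by
  induction m using Nat.strong_induction_on with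
  | _ m ih =>
  intro P hm hPJ hP hZ
  by_cases hdone : ∀ D, Cl ρ D → D.Nonempty → r ∉ D → n ≤ cnt tl hd (J \ P) D
  · exact ⟨P, hPJ, hP, hZ, hdone⟩
  push Not at hdone
  obtain ⟨D0, hD0, hD0n, hD0r, hD0c⟩ := hdone
  obtain ⟨Y0, hY0, hmin0⟩ := Set.exists_min_image {D | Cl ρ D ∧ D.Nonempty ∧ r ∉ D}
    (cnt tl hd (J \ P)) (Set.toFinite _) ⟨D0, hD0, hD0n, hD0r⟩
  obtain ⟨Y, ⟨⟨hY, hYn, hYr⟩, hYc⟩, hmax⟩ := Set.exists_max_image
    {D | (Cl ρ D ∧ D.Nonempty ∧ r ∉ D) ∧ cnt tl hd (J \ P) D ≤ cnt tl hd (J \ P) Y0}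
    Set.ncard (Set.toFinite _) ⟨Y0, hY0, le_rfl⟩
  have hYu : Y ≠ Set.univ := fun h => hYr (h ▸ Set.mem_univ r)
  have hg : cnt tl hd (J \ P) Y < n := (hYc.trans (hmin0 D0 ⟨hD0, hD0n, hD0r⟩)).trans_lt hD0c
  obtain ⟨P', h1, h2, h3, h4⟩ := astep ρ tl hd J n s t hJ P hPJ hP Y hY hYn hYu hg
    fun X hX hXn hXY => hYc.trans (hmin0 X ⟨hX, hXn, fun h => hYr (hXY h)⟩)
  have hYZ : Y ⊆ Z := (hZ Y hY hYn hYu hg).1 hYr
  refine ih _ ?_ P' rfl h1 h2 ?_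
  · rw [← hm]
    refine Set.ncard_lt_ncard ⟨?_, fun h => ?_⟩ (Set.toFinite _)
    · rintro p ⟨D, hpD, hD, hDn, hDr, hDc⟩
      rcases h4 D hD with h5 | h5
      · exact ⟨D, hpD, hD, hDn, hDr, h5.trans hDc⟩
      · exact ⟨D ∪ Y, hpD.trans Set.subset_union_left, hD.union hY,
          hDn.mono Set.subset_union_left, fun h => h.elim hDr hYr, h5.trans hDc⟩
    · obtain ⟨D, hpD, hD, hDn, hDr, hDc⟩ :=
        h (show (⟨⟨_, hg⟩, Y⟩ : Fin n × Set V) ∈ pot ρ tl hd (J \ P) n r from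
          ⟨Y, subset_rfl, hY, hYn, hYr, le_rfl⟩)
      have hYD : Y ⊆ D := hpD
      have hDc' : cnt tl hd (J \ P') D ≤ cnt tl hd (J \ P) Y := hDc
      have h5 : cnt tl hd (J \ P) D ≤ cnt tl hd (J \ P') D := by
        have := h4 D hD
        rwa [Set.union_eq_self_of_subset_right hYD, or_self] at this
      have h6 := hmax D ⟨⟨hD, hDn, hDr⟩, (h5.trans hDc').trans hYc⟩
      have h7 : Y = D := Set.eq_of_subset_of_ncard_le hYD h6 (Set.toFinite _)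
      rw [← h7] at hDc'
      omega
  · intro D hD hDn hDu hDc
    rcases h4 D hD with h5 | h5
    · exact hZ D hD hDn hDu (h5.trans_lt hDc)
    by_cases hu : D ∪ Y = Set.univ
    · refine ⟨fun hr => ?_, fun _ x hx => hYZ ?_⟩
      · have : r ∈ D ∪ Y := hu ▸ Set.mem_univ r
        exact absurd this fun h => h.elim hr hYr
      · have : x ∈ D ∪ Y := hu ▸ Set.mem_univ x
        exact this.resolve_left hx
    · have h6 := hZ (D ∪ Y) (hD.union hY) (hDn.mono Set.subset_union_left) hu (h5.trans_lt hDc)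
      refine ⟨fun hr => Set.subset_union_left.trans (h6.1 fun h => h.elim hr hYr),
        fun hr x hx => ?_⟩
      by_cases hxY : x ∈ Y
      · exact hYZ hxY
      · exact h6.2 (Or.inl hr) fun h => h.elim hx hxY

theorem cl_compl {ρ : V → V → Prop} {S : Set V} (h : Cl ρ S) : Cl (flip ρ) Sᶜ :=
  fun x y hxy hy hx => hy (h y x hxy hx)

theorem cnt_compl (tl hd : A → V) (R : Set A) (S : Set V) : cnt hd tl R Sᶜ = cnt tl hd R S := by
  unfold cnt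
  congr 2
  ext a
  simp only [ent, Set.mem_ofPred_eq, Set.mem_compl_iff, not_not]
  exact and_comm

theorem Rich.dual {ρ : V → V → Prop} {tl hd : A → V} {R : Set A} {n : ℕ}
    (h : Rich ρ tl hd R n) : Rich (flip ρ) hd tl R n := by
  intro X hX hXn hXu
  rw [← cnt_compl]
  exact h Xᶜ (cl_compl hX) (Set.nonempty_compl.2 hXu) (Set.compl_ne_univ.2 hXn)

theorem Cov.dual {ρ : V → V → Prop} {tl hd : A → V} {s t : V} {P : Set A}
    (h : Cov ρ tl hd s t P) : Cov (flip ρ) hd tl t s P := by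
  intro S hS ht hs
  obtain ⟨a, ha, h1, h2⟩ := h Sᶜ (cl_compl hS) hs fun h => h ht
  exact ⟨a, ha, not_not.1 h2, h1⟩

theorem Inv.dual {ρ : V → V → Prop} {tl hd : A → V} {R : Set A} {n : ℕ} {r : V} {Z : Set V}
    (h : Inv ρ tl hd R n r Z) : Inv (flip ρ) hd tl R n r Z := by
  intro X hX hXn hXu hc
  rw [← cnt_compl] at hc
  have h1 := h Xᶜ (cl_compl hX) (Set.nonempty_compl.2 hXu) (Set.compl_ne_univ.2 hXn) hc
  rw [compl_compl] at h1
  exact ⟨fun hr => h1.2 hr, fun hr => h1.1 fun h' => h' hr⟩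

theorem thin_aux [Finite V] [Finite A] (ρ : V → V → Prop) (tl hd : A → V) (J : Set A) (n : ℕ)
    (s t r : V) (hρ : ∀ a ∈ J, ρ (tl a) (hd a)) (hJ : Rich ρ tl hd J (n + 1)) (m : ℕ) :
    ∀ (Z : Set V) (P : Set A), Z.ncard = m → P ⊆ J → Cov ρ tl hd s t P →
      Inv ρ tl hd (J \ P) n r Z →
      ∃ P' : Set A, P' ⊆ J ∧ Cov ρ tl hd s t P' ∧ Rich ρ tl hd (J \ P') n := by
  induction m using Nat.strong_induction_on with
  | _ m ih =>
  intro Z P hm hPJ hP hZ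
  obtain ⟨P1, h1J, h1c, h1Z, h1A⟩ := aphase ρ tl hd J n s t r hJ Z _ P rfl hPJ hP hZ
  let Z1 : Set V := ⋃₀ {W | Cl (flip ρ) W ∧ r ∉ W ∧ W ⊆ Z}
  have hZ1Z : Z1 ⊆ Z := by
    rintro x ⟨W, hW, hx⟩
    exact hW.2.2 hx
  have hZ1c : Cl (flip ρ) Z1 := Cl.sUnion fun W hW => hW.1
  have h1Z1 : Inv ρ tl hd (J \ P1) n r Z1 := by
    intro D hD hDn hDu hc
    refine ⟨fun hr => absurd (h1A D hD hDn hr) (not_le.2 hc), fun hr x hx => ?_⟩
    exact ⟨Dᶜ, ⟨cl_compl hD, fun h => h hr, (h1Z D hD hDn hDu hc).2 hr⟩, hx⟩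
  obtain ⟨P2, h2J, h2c, h2Z, h2A⟩ := aphase (flip ρ) hd tl J n t s r hJ.dual Z1 _ P1 rfl h1J
    h1c.dual h1Z1.dual
  have h2c' : Cov ρ tl hd s t P2 := h2c.dual
  have h2Z' : Inv ρ tl hd (J \ P2) n r Z1 := h2Z.dual
  have h2B : ∀ D, Cl ρ D → D ≠ Set.univ → r ∈ D → n ≤ cnt tl hd (J \ P2) D := by
    intro D hD hDu hr
    rw [← cnt_compl]
    exact h2A Dᶜ (cl_compl hD) (Set.nonempty_compl.2 hDu) fun h => h hr
  let Z2 : Set V := ⋃₀ {D | Cl ρ D ∧ r ∉ D ∧ D ⊆ Z1}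
  have hZ21 : Z2 ⊆ Z1 := by
    rintro x ⟨W, hW, hx⟩
    exact hW.2.2 hx
  have hZ2c : Cl ρ Z2 := Cl.sUnion fun W hW => hW.1
  have hZ2r : r ∉ Z2 := by
    rintro ⟨W, hW, hx⟩
    exact hW.2.1 hx
  have h2Z2 : Inv ρ tl hd (J \ P2) n r Z2 := by
    intro D hD hDn hDu hc
    refine ⟨fun hr x hx => ?_, fun hr => absurd (h2B D hD hDu hr) (not_le.2 hc)⟩
    exact ⟨D, ⟨hD, hr, (h2Z' D hD hDn hDu hc).1 hr⟩, hx⟩
  rcases Z2.eq_empty_or_nonempty with he | hne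
  · refine ⟨P2, h2J, h2c', fun D hD hDn hDu => ?_⟩
    by_contra hc
    by_cases hr : r ∈ D
    · exact hc (h2B D hD hDu hr)
    · have := (h2Z2 D hD hDn hDu (not_le.1 hc)).1 hr
      rw [he] at this
      exact Set.not_nonempty_empty (hDn.mono this)
  · refine ih _ ?_ Z2 P2 rfl h2J h2c' h2Z2
    rw [← hm]
    refine Set.ncard_lt_ncard ⟨hZ21.trans hZ1Z, fun h => ?_⟩ (Set.toFinite _)
    have h3 := hJ Z2 hZ2c hne fun h' => hZ2r (h' ▸ Set.mem_univ r)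
    obtain ⟨a, ha, hta, hha⟩ : (J ∩ ent hd tl Z2).Nonempty :=
      Set.nonempty_of_ncard_ne_zero (by unfold cnt at h3; omega)
    exact hha (h (hZ1Z (hZ1c (hd a) (tl a) (hρ a ha) (hZ21 hta))))

/-- The thin connection theorem. -/
theorem thin [Finite V] [Finite A] (ρ : V → V → Prop) (tl hd : A → V) (J : Set A) (n : ℕ)
    (s t : V) (hρ : ∀ a ∈ J, ρ (tl a) (hd a)) (hJ : Rich ρ tl hd J (n + 1)) :
    ∃ P : Set A, P ⊆ J ∧ Cov ρ tl hd s t P ∧ Rich ρ tl hd (J \ P) n := by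
  refine thin_aux ρ tl hd J n s t s hρ hJ _ Set.univ J rfl subset_rfl ?_ ?_
  · intro S hS hs ht
    have h3 := hJ S hS ⟨s, hs⟩ fun h' => ht (h' ▸ Set.mem_univ t)
    exact Set.nonempty_of_ncard_ne_zero (by unfold cnt at h3; omega)
  · exact fun D _ _ _ _ => ⟨fun _ => Set.subset_univ _, fun _ => Set.subset_univ _⟩

/-- Several disjoint thin connections. -/
theorem multi [Finite V] [Finite A] {ι : Type} (ρ : V → V → Prop) (tl hd : A → V) (s t : ι → V)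
    (n : ℕ) (I : Finset ι) : ∀ J : Set A, (∀ a ∈ J, ρ (tl a) (hd a)) →
      Rich ρ tl hd J (n + I.card) →
      ∃ c : A → Option ι, (∀ i ∈ I, Cov ρ tl hd (s i) (t i) {a | a ∈ J ∧ c a = some i}) ∧
        Rich ρ tl hd {a | a ∈ J ∧ c a = none} n := by
  classical
  induction I using Finset.induction_on with
  | empty =>
    intro J _ hJ
    refine ⟨fun _ => none, fun i hi => absurd hi (Finset.notMem_empty i), fun X hX hXn hXu => ?_⟩
    exact (hJ X hX hXn hXu).trans (cnt_le fun a ha h1 h2 => ⟨⟨ha, rfl⟩, h1, h2⟩)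
  | insert i I hi ih =>
    intro J hρ hJ
    rw [Finset.card_insert_of_notMem hi, ← Nat.add_assoc] at hJ
    obtain ⟨P, hPJ, hP, hR⟩ := thin ρ tl hd J _ (s i) (t i) hρ hJ
    obtain ⟨c, hc, hn⟩ := ih (J \ P) (fun a ha => hρ a ha.1) hR
    refine ⟨fun a => if a ∈ P then some i else c a, fun j hj S hS hs ht => ?_,
      fun X hX hXn hXu => ?_⟩
    · rcases Finset.mem_insert.1 hj with rfl | hj
      · obtain ⟨a, ha, ha'⟩ := hP S hS hs ht
        exact ⟨a, ⟨hPJ ha, if_pos ha⟩, ha'⟩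
      · obtain ⟨a, ha, ha'⟩ := hc j hj S hS hs ht
        exact ⟨a, ⟨ha.1.1, (if_neg ha.1.2).trans ha.2⟩, ha'⟩
    · exact (hn X hX hXn hXu).trans
        (cnt_le fun a ha h1 h2 => ⟨⟨ha.1.1, (if_neg ha.1.2).trans ha.2⟩, h1, h2⟩)

end Pool.Agent.Lib.MP_cbe08d_co.Thin
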