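import Pool.Agent.Lib.MP_cbe08d_co.Thin2
import Pool.Agent.Lib.MP_cbe08d_co.Forest

/-!
Thin connections in digraphs that need not be weakly connected, and the transfer of the
packing property from a digraph with extra arcs.
-/

set_option autoImplicit false

namespace Pool.Agent.Lib.MP_cbe08d_co.Thin

variable {V A : Type}

/-- Every nonempty directed cut has at least `n` arcs of `R`. -/
def RichD (tl hd : A → V) (R : Set A) (n : ℕ) : Prop :=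
  ∀ S : Set V, (∀ a, hd a ∈ S → tl a ∈ S) → (∃ a, tl a ∈ S ∧ hd a ∉ S) → n ≤ cnt tl hd R S

/-- `P` meets every directed cut with `s` inside and `t` outside. -/
def CovD (tl hd : A → V) (s t : V) (P : Set A) : Prop :=
  ∀ S : Set V, (∀ a, hd a ∈ S → tl a ∈ S) → s ∈ S → t ∉ S → (P ∩ ent hd tl S).Nonempty

/-- `s` and `t` lie in one weak component. -/
def Same (tl hd : A → V) (s t : V) : Prop :=
  ∀ K : Set V, (∀ a, tl a ∈ K ↔ hd a ∈ K) → (s ∈ K ↔ t ∈ K)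

theorem thinD [Finite V] [Finite A] (tl hd : A → V) (J : Set A) (n : ℕ) (s t : V)
    (hst : Same tl hd s t) (hJ : RichD tl hd J (n + 1)) :
    ∃ P : Set A, P ⊆ J ∧ CovD tl hd s t P ∧ RichD tl hd (J \ P) n := by
  let K : Set V := {x | Same tl hd s x}
  have hsK : s ∈ K := fun _ _ => Iff.rfl
  have hK : ∀ a, tl a ∈ K ↔ hd a ∈ K := fun a =>
    ⟨fun h L hL => (h L hL).trans (hL a), fun h L hL => (h L hL).trans (hL a).symm⟩
  have hconn : ∀ S : Set V, (∀ a, hd a ∈ S → tl a ∈ S) → ∀ x y, x ∈ K → y ∈ K → x ∈ S → y ∉ S →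
      ∃ a, tl a ∈ S ∧ hd a ∉ S := by
    intro S hS x y hx hy hxS hyS
    by_contra hcon
    have h1 : ∀ a, tl a ∈ S ↔ hd a ∈ S := fun a =>
      ⟨fun h => by_contra fun h' => hcon ⟨a, h, h'⟩, hS a⟩
    exact hyS ((hy S h1).1 ((hx S h1).2 hxS))
  let ρ : V → V → Prop := fun x y =>
    (∃ a, tl a = x ∧ hd a = y) ∨ ((x ∉ K ∨ x = s) ∧ (y ∉ K ∨ y = s))
  have hcl : ∀ S, Cl ρ S → ∀ a, hd a ∈ S → tl a ∈ S := fun S hS a h =>
    hS _ _ (Or.inl ⟨a, rfl, rfl⟩) h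
  have hrich : Rich ρ tl hd J (n + 1) := by
    intro X hX ⟨x, hx⟩ hXu
    obtain ⟨y, hy⟩ := (Set.ne_univ_iff_exists_notMem X).1 hXu
    refine hJ X (hcl X hX) ?_
    by_cases hxK : x ∈ K
    · by_cases hyK : y ∈ K
      · exact hconn X (hcl X hX) x y hxK hyK hx hy
      · exact hconn X (hcl X hX) x s hxK hsK hx fun h =>
          hy (hX y s (Or.inr ⟨Or.inl hyK, Or.inr rfl⟩) h)
    · have hsX : s ∈ X := hX s x (Or.inr ⟨Or.inr rfl, Or.inl hxK⟩) hx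
      by_cases hyK : y ∈ K
      · exact hconn X (hcl X hX) s y hsK hyK hsX hy
      · exact absurd (hX y s (Or.inr ⟨Or.inl hyK, Or.inr rfl⟩) hsX) hy
  obtain ⟨P, hPJ, hP, hR⟩ := thin ρ tl hd J n s t (fun a _ => Or.inl ⟨a, rfl, rfl⟩) hrich
  have hglue : ∀ S : Set V, (∀ a, hd a ∈ S → tl a ∈ S) →
      Cl ρ {x | (x ∈ K ∧ x ∈ S) ∨ (x ∉ K ∧ s ∈ S)} := by
    rintro S hS x y (⟨a, rfl, rfl⟩ | ⟨hx, hy⟩) h
    · rcases h with h | h
      · exact Or.inl ⟨(hK a).2 h.1, hS a h.2⟩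
      · exact Or.inr ⟨fun h' => h.1 ((hK a).1 h'), h.2⟩
    · have hsS : s ∈ S := by
        rcases h with h | h
        · exact (hy.resolve_left fun h' => h' h.1) ▸ h.2
        · exact h.2
      rcases hx with hx | hx
      · exact Or.inr ⟨hx, hsS⟩
      · exact Or.inl ⟨hx ▸ hsK, hx ▸ hsS⟩
  have hin : ∀ (S : Set V) a, tl a ∈ {x | (x ∈ K ∧ x ∈ S) ∨ (x ∉ K ∧ s ∈ S)} →
      hd a ∉ {x | (x ∈ K ∧ x ∈ S) ∨ (x ∉ K ∧ s ∈ S)} → tl a ∈ K ∧ tl a ∈ S ∧ hd a ∉ S := by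
    intro S a h1 h2
    rcases h1 with h1 | h1
    · exact ⟨h1.1, h1.2, fun h => h2 (Or.inl ⟨(hK a).1 h1.1, h⟩)⟩
    · exact absurd (Or.inr ⟨fun h => h1.1 ((hK a).2 h), h1.2⟩) h2
  refine ⟨{a | a ∈ P ∧ tl a ∈ K}, fun a ha => hPJ ha.1, fun S hS hs ht => ?_,
    fun S hS hS' => ?_⟩
  · obtain ⟨a, ha, h1, h2⟩ := hP _ (hglue S hS) (Or.inl ⟨hsK, hs⟩)
      fun h => h.elim (fun h => ht h.2) fun h => h.1 hst
    obtain ⟨h3, h4⟩ := hin S a h1 h2
    exact ⟨a, ⟨ha, h3⟩, h4⟩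
  · by_cases hKS : ∃ a, tl a ∈ K ∧ tl a ∈ S ∧ hd a ∉ S
    · obtain ⟨b, hb1, hb2, hb3⟩ := hKS
      refine (hR _ (hglue S hS) ⟨tl b, Or.inl ⟨hb1, hb2⟩⟩ fun h => ?_).trans
        (cnt_le fun a ha h1 h2 => ⟨⟨ha.1, fun h => ha.2 h.1⟩, (hin S a h1 h2).2⟩)
      have : hd b ∈ {x | (x ∈ K ∧ x ∈ S) ∨ (x ∉ K ∧ s ∈ S)} := h ▸ Set.mem_univ _
      exact this.elim (fun h => hb3 h.2) fun h => h.1 ((hK b).1 hb1)
    · refine (Nat.le_succ n).trans ((hJ S hS hS').trans (cnt_le fun a ha h1 h2 => ?_))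
      exact ⟨⟨ha, fun h => hKS ⟨a, h.2, h1, h2⟩⟩, h1, h2⟩

theorem multiD [Finite V] [Finite A] {ι : Type} (tl hd : A → V) (s t : ι → V)
    (hst : ∀ i, Same tl hd (s i) (t i)) (n : ℕ) (I : Finset ι) : ∀ J : Set A,
      RichD tl hd J (n + I.card) →
      ∃ c : A → Option ι, (∀ i ∈ I, CovD tl hd (s i) (t i) {a | a ∈ J ∧ c a = some i}) ∧
        RichD tl hd {a | a ∈ J ∧ c a = none} n := by
  classical
  induction I using Finset.induction_on with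
  | empty =>
    intro J hJ
    refine ⟨fun _ => none, fun i hi => absurd hi (Finset.notMem_empty i), fun X hX hXn => ?_⟩
    exact (hJ X hX hXn).trans (cnt_le fun a ha h1 h2 => ⟨⟨ha, rfl⟩, h1, h2⟩)
  | insert i I hi ih =>
    intro J hJ
    rw [Finset.card_insert_of_notMem hi, ← Nat.add_assoc] at hJ
    obtain ⟨P, hPJ, hP, hR⟩ := thinD tl hd J _ (s i) (t i) (hst i) hJ
    obtain ⟨c, hc, hn⟩ := ih (J \ P) hR
    refine ⟨fun a => if a ∈ P then some i else c a, fun j hj S hS hs ht => ?_,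
      fun X hX hXn => ?_⟩
    · rcases Finset.mem_insert.1 hj with rfl | hj
      · obtain ⟨a, ha, ha'⟩ := hP S hS hs ht
        exact ⟨a, ⟨hPJ ha, if_pos ha⟩, ha'⟩
      · obtain ⟨a, ha, ha'⟩ := hc j hj S hS hs ht
        exact ⟨a, ⟨ha.1.1, (if_neg ha.1.2).trans ha.2⟩, ha'⟩
    · exact (hn X hX hXn).trans
        (cnt_le fun a ha h1 h2 => ⟨⟨ha.1.1, (if_neg ha.1.2).trans ha.2⟩, h1, h2⟩)

theorem transfer (k m : ℕ) (hk : 0 < k) [Finite V] [Finite A] (tail head : A → V) (J : Set A)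
    (xt xh : Fin m → V) (hx : ∀ j, Same tail head (xt j) (xh j))
    (hG : (Forest.sourceSinkGraph (Sum.elim tail xt) (Sum.elim head xh)).IsAcyclic)
    (hJ : RichD tail head J (k * (m + 1))) :
    ∃ c : A → Fin k, ∀ i : Fin k, ∀ S : Set V, (∀ a : A, head a ∈ S → tail a ∈ S) →
      (∃ a : A, tail a ∈ S ∧ head a ∉ S) → ∃ a : A, a ∈ J ∧ c a = i ∧ tail a ∈ S ∧ head a ∉ S := by
  obtain ⟨c, hc, hn⟩ := multiD (ι := Fin k × Fin m) tail head (fun p => xh p.2) (fun p => xt p.2)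
    (fun p K hK => (hx p.2 K hK).symm) k Finset.univ J (by
      rw [Finset.card_univ, Fintype.card_prod, Fintype.card_fin, Fintype.card_fin,
        show k + k * m = k * (m + 1) by ring]
      exact hJ)
  obtain ⟨c0, hc0⟩ := Forest.forest_eg k hk V (A ⊕ Fin m) (Sum.elim tail xt) (Sum.elim head xh)
    (Sum.inl '' {a | a ∈ J ∧ c a = none}) hG (by
      intro S hS hS'
      have hSA : ∀ a, head a ∈ S → tail a ∈ S := fun a => hS (Sum.inl a)
      have hex : ∃ a, tail a ∈ S ∧ head a ∉ S := by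
        obtain ⟨b, h1, h2⟩ := hS'
        rcases b with a | j
        · exact ⟨a, h1, h2⟩
        · by_contra hcon
          exact h2 ((hx j S fun a => ⟨fun h => by_contra fun h' => hcon ⟨a, h, h'⟩, hSA a⟩).1 h1)
      refine (hn S hSA hex).trans ?_
      unfold cnt
      rw [← Set.ncard_image_of_injective _ (Sum.inl_injective (β := Fin m))]
      refine Set.ncard_le_ncard ?_ (Set.toFinite _)
      rintro _ ⟨a, ⟨ha, h1, h2⟩, rfl⟩
      exact ⟨⟨a, ha, rfl⟩, h1, h2⟩)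
  refine ⟨fun a => (c a).elim (c0 (Sum.inl a)) Prod.fst, fun i S hS hS' => ?_⟩
  by_cases hx' : ∃ j, xh j ∈ S ∧ xt j ∉ S
  · obtain ⟨j, h1, h2⟩ := hx'
    obtain ⟨a, ⟨haJ, hca⟩, ha⟩ := hc (i, j) (Finset.mem_univ _) S hS h1 h2
    refine ⟨a, haJ, ?_, ha⟩
    change (c a).elim (c0 (Sum.inl a)) Prod.fst = i
    rw [hca]
    rfl
  · obtain ⟨b, ⟨a, ⟨haJ, hca⟩, rfl⟩, hb, h1, h2⟩ := hc0 i S (by
      rintro (a | j) h
      · exact hS a h
      · exact by_contra fun h' => hx' ⟨j, h, h'⟩) (by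
      obtain ⟨a, ha⟩ := hS'
      exact ⟨Sum.inl a, ha⟩)
    refine ⟨a, haJ, ?_, h1, h2⟩
    change (c a).elim (c0 (Sum.inl a)) Prod.fst = i
    rw [hca]
    exact hb

end Pool.Agent.Lib.MP_cbe08d_co.Thin
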